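import Pool.Agent.T6.H71.AE.Perm

/-!
# The action of the group algebra of the symmetric group on tensor powers
-/

set_option autoImplicit false
set_option linter.unusedSectionVars false

open CategoryTheory MonoidalCategory Limits Pool.Agent.TH137.DG Pool.Agent.Z125.UN

namespace Pool.Agent.T6.H71.AE

universe v u

/-- the group algebra -/
abbrev SA (n : ℕ) := MonoidAlgebra ℚ (Equiv.Perm (Fin n))

lemma sum_single {n : ℕ} (x : SA n) : x = ∑ σ, MonoidAlgebra.single σ (x.coeff σ) := by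
  ext τ
  rw [MonoidAlgebra.coeff_sum, Finsupp.finsetSum_apply, Finset.sum_eq_single τ]
  · simp
  · intro σ _ h
    simp [h]
  · intro h
    exact absurd (Finset.mem_univ _) h

lemma exists_idem {n : ℕ} (x : SA n) : ∃ r : SA n, (r * x) * (r * x) = r * x ∧ x * (r * x) = x := by
  have : NeZero (Nat.card (Equiv.Perm (Fin n)) : ℚ) := ⟨by
    exact_mod_cast Nat.card_pos.ne'⟩
  obtain ⟨e, he, hI⟩ := IsSemisimpleRing.ideal_eq_span_idempotent (Ideal.span {x})
  have h1 : e ∈ Ideal.span {x} := by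
    rw [hI]
    exact Ideal.mem_span_singleton_self e
  have h2 : x ∈ Ideal.span {e} := by
    rw [← hI]
    exact Ideal.mem_span_singleton_self x
  obtain ⟨r, hr⟩ := Ideal.mem_span_singleton'.1 h1
  obtain ⟨s, hs⟩ := Ideal.mem_span_singleton'.1 h2
  refine ⟨r, by rw [hr]; exact he, ?_⟩
  rw [hr, ← hs, mul_assoc]
  congr 1

/-- The restriction to the permutations which fix `0`. -/
noncomputable def res {n : ℕ} (x : SA (n + 1)) : SA n :=
  ∑ σ : Equiv.Perm (Fin (n + 1)), if σ 0 = 0 then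
    MonoidAlgebra.single (permTail σ) (x.coeff σ) else 0

lemma eq_one_of {n : ℕ} {σ : Equiv.Perm (Fin (n + 1))} (h0 : σ 0 = 0) (h1 : permTail σ = 1) :
    σ = 1 := by
  ext i
  induction i using Fin.cases with
  | zero => rw [h0]; rfl
  | succ i =>
    have := permTail_apply σ i
    rw [h0, h1] at this
    rw [← this]
    simp

lemma res_coeff_one {n : ℕ} (x : SA (n + 1)) : (res x).coeff 1 = x.coeff 1 := by
  rw [res, MonoidAlgebra.coeff_sum, Finsupp.finsetSum_apply, Finset.sum_eq_single 1]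
  · rw [if_pos (by rfl), permTail_one]
    simp
  · intro σ _ hσ
    split_ifs with h
    · have h1 : permTail σ ≠ 1 := fun h1 => hσ (eq_one_of h h1)
      simp [h1]
    · simp
  · intro h
    exact absurd (Finset.mem_univ _) h

section

variable {C : Type u} [Category.{v} C] [MonoidalCategory C] [SymmetricCategory C] [Preadditive C]
  [Linear ℚ C]

/-- The action of the group algebra. -/
noncomputable def act (X : C) (n : ℕ) : SA n →ₐ[ℚ] End (tpow X n) :=
  MonoidAlgebra.lift ℚ (End (tpow X n)) (Equiv.Perm (Fin n))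
    { toFun := fun σ => permAct X n σ
      map_one' := permAct_one X n
      map_mul' := fun τ ρ => (permAct_mul X n ρ τ).symm }

lemma act_single (X : C) (n : ℕ) (σ : Equiv.Perm (Fin n)) (q : ℚ) :
    act X n (MonoidAlgebra.single σ q) = q • (permAct X n σ : End (tpow X n)) :=
  MonoidAlgebra.lift_single _ _ _

lemma act_mul (X : C) (n : ℕ) (x y : SA n) :
    (act X n (x * y) : tpow X n ⟶ tpow X n) = act X n y ≫ act X n x :=
  (map_mul (act X n) x y)

lemma act_nat {X Y : C} (f : X ⟶ Y) (n : ℕ) (x : SA n) :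
    (act X n x : tpow X n ⟶ tpow X n) ≫ tpm f n = tpm f n ≫ (act Y n x : tpow Y n ⟶ tpow Y n) := by
  rw [sum_single x, map_sum, map_sum]
  change (∑ σ, act X n (MonoidAlgebra.single σ (x.coeff σ)) : tpow X n ⟶ tpow X n) ≫ _ =
    _ ≫ (∑ σ, act Y n (MonoidAlgebra.single σ (x.coeff σ)) : tpow Y n ⟶ tpow Y n)
  rw [Preadditive.sum_comp, Preadditive.comp_sum]
  refine Finset.sum_congr rfl fun σ _ => ?_
  rw [act_single, act_single]
  rw [Linear.smul_comp, Linear.comp_smul, permAct_nat]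

lemma whisker_fl_zero [MonoidalPreadditive C] {Y Q W W' : C} (f : 𝟙_ C ⟶ Y) (u : Y ⟶ Q)
    (hfu : f ≫ u = 0) (v : W ⟶ W') : f ▷ (Y ⊗ W) ≫ fl Y W ≫ Y ◁ (u ⊗ₘ v) = 0 := by
  have h1 : f ▷ W ≫ (u ⊗ₘ v) = 0 := by
    rw [← tensorHom_id, tensorHom_comp_tensorHom, hfu]
    simp
  have h2 : f ▷ (Y ⊗ W) ≫ fl Y W = (α_ _ _ _).inv ≫ (β_ _ _).hom ▷ W ≫ (α_ _ _ _).hom ≫
      Y ◁ (f ▷ W) := by
    rw [fl, ← associator_naturality_middle, associator_inv_naturality_left_assoc]
    simp only [← comp_whiskerRight_assoc, BraidedCategory.braiding_naturality_left]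
  rw [reassoc_of% h2, ← MonoidalCategory.whiskerLeft_comp, h1]
  simp

lemma wl_qsmul [MonoidalPreadditive C] (Y : C) {W W' : C} (q : ℚ) (g : W ⟶ W') :
    Y ◁ (q • g) = q • (Y ◁ g) :=
  map_rat_smul ((tensorLeft Y).mapAddHom (X := W) (Y := W')) q g

/-- The basic computation. -/
lemma permAct_res [MonoidalPreadditive C] {Y Q : C} (f : 𝟙_ C ⟶ Y) (u : Y ⟶ Q)
    (hfu : f ≫ u = 0) (n : ℕ) (σ : Equiv.Perm (Fin (n + 1))) :
    f ▷ tpow Y n ≫ permAct Y (n + 1) σ ≫ Y ◁ tpm u n =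
      if σ 0 = 0 then f ▷ tpow Y n ≫ Y ◁ (tpm u n ≫ permAct Q n (permTail σ)) else 0 := by
  rw [permAct_succ]
  split_ifs with h
  · rw [h, insAct_zero, Category.comp_id, ← MonoidalCategory.whiskerLeft_comp, permAct_nat]
  · obtain ⟨j, hj⟩ := Fin.exists_succ_eq.2 h
    rw [← hj]
    cases n with
    | zero => exact j.elim0
    | succ m =>
      rw [insAct_succ, Category.assoc, Category.assoc, ← MonoidalCategory.whiskerLeft_comp,
        insAct_nat, MonoidalCategory.whiskerLeft_comp, ← whisker_exchange_assoc]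
      have := whisker_fl_zero (W := tpow Y m) f u hfu (tpm u m)
      rw [show Y ◁ tpm u (m + 1) = Y ◁ (u ⊗ₘ tpm u m) from rfl, reassoc_of% this]
      simp

lemma act_res [MonoidalPreadditive C] {Y Q : C} (f : 𝟙_ C ⟶ Y) (u : Y ⟶ Q)
    (hfu : f ≫ u = 0) (n : ℕ) (x : SA (n + 1)) :
    f ▷ tpow Y n ≫ (act Y (n + 1) x : tpow Y (n + 1) ⟶ tpow Y (n + 1)) ≫ Y ◁ tpm u n =
      f ▷ tpow Y n ≫ Y ◁ (tpm u n ≫ (act Q n (res x) : tpow Q n ⟶ tpow Q n)) := by
  rw [res, map_sum]
  conv_lhs => rw [sum_single x, map_sum]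
  change _ ≫ (∑ σ, act Y (n + 1) (MonoidAlgebra.single σ (x.coeff σ)) :
      tpow Y (n + 1) ⟶ tpow Y (n + 1)) ≫ _ = _ ≫ Y ◁ (_ ≫ (∑ σ : Equiv.Perm (Fin (n + 1)),
      act Q n (if σ 0 = 0 then MonoidAlgebra.single (permTail σ) (x.coeff σ) else 0) :
      tpow Q n ⟶ tpow Q n))
  rw [Preadditive.sum_comp, Preadditive.comp_sum, Preadditive.comp_sum]
  rw [show Y ◁ (∑ σ : Equiv.Perm (Fin (n + 1)), tpm u n ≫ (act Q n (if σ 0 = 0 then
      MonoidAlgebra.single (permTail σ) (x.coeff σ) else 0) : tpow Q n ⟶ tpow Q n)) =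
      ∑ σ : Equiv.Perm (Fin (n + 1)), Y ◁ (tpm u n ≫ (act Q n (if σ 0 = 0 then
      MonoidAlgebra.single (permTail σ) (x.coeff σ) else 0) : tpow Q n ⟶ tpow Q n)) from
      (tensorLeft Y).map_sum _ _, Preadditive.comp_sum]
  refine Finset.sum_congr rfl fun σ _ => ?_
  rw [act_single]
  rw [Linear.smul_comp, Linear.comp_smul, permAct_res f u hfu]
  split_ifs with h
  · rw [act_single, Linear.comp_smul, wl_qsmul, Linear.comp_smul]
  · rw [map_zero]
    change _ = _ ≫ Y ◁ (_ ≫ (0 : tpow Q n ⟶ tpow Q n))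
    simp

end

end Pool.Agent.T6.H71.AE
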