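import Pool.Agent.T6.H71.AE.Alg
import Pool.Agent.T6.H13.MT.Coh

/-!
# Morphisms which vanish in cohomology, morphisms which are surjective in cohomology
-/

set_option autoImplicit false
set_option linter.unusedSectionVars false
set_option linter.unusedSimpArgs false
set_option backward.isDefEq.respectTransparency false
set_option backward.defeqAttrib.useBackward true

open CategoryTheory Limits MonoidalCategory Pretriangulated Triangulated

namespace Pool.Agent.T6.H71.AE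

open Pool.Agent.Y116.MT Pool.Agent.V1178.MT Pool.Agent.T6.H13.MT Pool.Agent.TH137.DG
  Pool.Agent.Z125.UN

universe v u w

open Functor.LaxMonoidal

section

variable {C : Type u} [Category.{v} C] [Preadditive C] [HasZeroObject C] [HasShift C ℤ]
  [∀ n : ℤ, (shiftFunctor C n).Additive] [Pretriangulated C] [MonoidalCategory C]
  [SymmetricCategory C] [TensorTriangulated C] {E : Type w} [Field E] (R : Realisation C E)

/-- `f` vanishes in cohomology. -/
def BZ {X Y : C} (f : X ⟶ Y) : Prop := ∀ j : ℤ, R.H.map (f⟦j⟧') = 0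

/-- `f` is surjective in cohomology. -/
def HS {X Y : C} (f : X ⟶ Y) : Prop := ∀ j : ℤ, Epi (R.H.map (f⟦j⟧'))

variable {R}

lemma BZ.comp_left {X Y Z : C} {g : Y ⟶ Z} (h : BZ R g) (f : X ⟶ Y) : BZ R (f ≫ g) := fun j => by
  rw [Functor.map_comp, Functor.map_comp, h j, comp_zero]

lemma BZ.comp_right {X Y Z : C} {f : X ⟶ Y} (h : BZ R f) (g : Y ⟶ Z) : BZ R (f ≫ g) := fun j => by
  rw [Functor.map_comp, Functor.map_comp, h j, zero_comp]

lemma BZ.map {X Y : C} {f : X ⟶ Y} (h : BZ R f) : R.H.map f = 0 := by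
  have h1 := h 0
  rw [shift_zero_map] at h1
  rw [← cancel_epi (R.H.map ((shiftFunctorZero C ℤ).hom.app X)),
    ← cancel_mono (R.H.map ((shiftFunctorZero C ℤ).inv.app Y)), Category.assoc, h1,
    comp_zero, zero_comp]

lemma BZ.shift {X Y : C} {f : X ⟶ Y} (h : BZ R f) (n : ℤ) : BZ R (f⟦n⟧') := fun j => by
  have h1 : f⟦n⟧'⟦j⟧' = (shiftFunctorAdd C n j).inv.app X ≫ f⟦n + j⟧' ≫
      (shiftFunctorAdd C n j).hom.app Y :=
    shift_shift' _ _ f n j
  rw [h1, Functor.map_comp, Functor.map_comp, h, zero_comp, comp_zero]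

lemma BZ.cancel_epi {X Y Z : C} (e : X ⟶ Y) [IsIso e] {f : Y ⟶ Z} (h : BZ R (e ≫ f)) :
    BZ R f := by
  have := h.comp_left (inv e)
  rwa [IsIso.inv_hom_id_assoc] at this

lemma BZ.cancel_mono {X Y Z : C} (e : Y ⟶ Z) [IsIso e] {f : X ⟶ Y} (h : BZ R (f ≫ e)) :
    BZ R f := by
  have := h.comp_right (inv e)
  rwa [Category.assoc, IsIso.hom_inv_id, Category.comp_id] at this

lemma lShift_natural_right (X : C) {Y Y' : C} (g : Y ⟶ Y') (n : ℤ) :
    (X⟦n⟧) ◁ g ≫ (lShift X Y' n).hom = (lShift X Y n).hom ≫ (X ◁ g)⟦n⟧' := by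
  simp only [lShift, Iso.trans_hom, Functor.mapIso_hom, Category.assoc, ← Functor.map_comp]
  rw [BraidedCategory.braiding_naturality_right_assoc, ← Category.assoc (g ▷ _),
    rShift_natural_left, Category.assoc, ← Functor.map_comp,
    BraidedCategory.braiding_naturality_left]

lemma shiftTensorIso_natural (X : C) {Y Y' : C} (g : Y ⟶ Y') (i : ℤ) :
    (X⟦i⟧) ◁ (g⟦-i⟧') ≫ (shiftTensorIso X Y' i).hom = (shiftTensorIso X Y i).hom ≫ (X ◁ g) := by
  simp only [shiftTensorIso, Iso.trans_hom, Functor.mapIso_hom, Category.assoc]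
  rw [← Category.assoc ((X⟦i⟧) ◁ _), rShift_natural_right, Category.assoc,
    ← Category.assoc (((X⟦i⟧) ◁ g)⟦-i⟧'), ← Functor.map_comp, lShift_natural_right,
    Functor.map_comp, Category.assoc]
  congr 2
  exact (shiftEquiv C i).unitIso.inv.naturality (X ◁ g)

lemma map_wl_zero {X Y Z : C} {f : X ⟶ Y} (h : BZ R f) : R.H.map (Z ◁ f) = 0 := by
  apply ModuleCat.hom_ext
  have hs := (R.kunneth Z X).2
  have key : (R.H.map (Z ◁ f)).hom ∘ₗ kunnethMap R.H Z X = 0 := by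
    apply DirectSum.linearMap_ext
    intro i
    have h1 : (μ R.H (Z⟦i⟧) (X⟦-i⟧) ≫ R.H.map (shiftTensorIso Z X i).hom) ≫ R.H.map (Z ◁ f) = 0 := by
      rw [Category.assoc, ← Functor.map_comp, ← shiftTensorIso_natural, Functor.map_comp,
        ← μ_natural_right_assoc, h (-i)]
      rw [show R.H.obj (Z⟦i⟧) ◁ (0 : R.H.obj (X⟦-i⟧) ⟶ R.H.obj (Y⟦-i⟧)) = 0 from
        (tensorLeft _).map_zero _ _, zero_comp]
    have h2 := congrArg ModuleCat.Hom.hom h1
    rw [LinearMap.zero_comp, LinearMap.comp_assoc]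
    have h3 : kunnethMap R.H Z X ∘ₗ DirectSum.lof E ℤ (fun i : ℤ =>
        (R.H.obj (Z⟦i⟧) ⊗ R.H.obj (X⟦-i⟧) : ModuleCat.{w} E)) i =
        (μ R.H (Z⟦i⟧) (X⟦-i⟧) ≫ R.H.map (shiftTensorIso Z X i).hom).hom := by
      ext x
      simp [kunnethMap]
    rw [h3]
    exact h2
  ext x
  obtain ⟨y, rfl⟩ := hs x
  exact LinearMap.congr_fun key y

lemma BZ.wl {X Y : C} {f : X ⟶ Y} (h : BZ R f) (Z : C) : BZ R (Z ◁ f) := fun j => by
  have h1 := map_wl_zero (Z := Z) (h.shift j)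
  have h2 := rShift_natural_right Z f j
  have h3 : (Z ◁ f)⟦j⟧' = (rShift Z X j).inv ≫ Z ◁ (f⟦j⟧') ≫ (rShift Z Y j).hom := by
    rw [h2, Iso.inv_hom_id_assoc]
  rw [h3, Functor.map_comp, Functor.map_comp, h1, zero_comp, comp_zero]

lemma BZ.wr {X Y : C} {f : X ⟶ Y} (h : BZ R f) (Z : C) : BZ R (f ▷ Z) := by
  have h1 := (h.wl Z).comp_left (β_ X Z).hom
  rw [← BraidedCategory.braiding_naturality_left] at h1
  exact h1.cancel_mono _

lemma HS.comp {X Y Z : C} {f : X ⟶ Y} {g : Y ⟶ Z} (hf : HS R f) (hg : HS R g) :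
    HS R (f ≫ g) := fun j => by
  have := hf j
  have := hg j
  rw [Functor.map_comp, Functor.map_comp]
  infer_instance

lemma HS.cancel {X Y Z : C} {f : X ⟶ Y} {g : Y ⟶ Z} (hf : HS R f) (h : BZ R (f ≫ g)) :
    BZ R g := fun j => by
  have h1 := h j
  have := hf j
  rw [Functor.map_comp, Functor.map_comp] at h1
  rw [← CategoryTheory.cancel_epi (R.H.map (f⟦j⟧')), h1, comp_zero]

lemma HS_iso {X Y : C} (f : X ⟶ Y) [IsIso f] : HS R f := fun _ => inferInstance

lemma HS_iff {X Y Z : C} {f : X ⟶ Y} {g : Y ⟶ Z} {h : Z ⟶ X⟦(1 : ℤ)⟧}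
    (hT : Triangle.mk f g h ∈ distTriang C) : HS R f ↔ BZ R g := by
  let _ := Functor.ShiftSequence.tautological R.H ℤ
  exact forall_congr' fun j => R.H.homologySequence_epi_shift_map_mor₁_iff _ hT j

lemma HS.wl {X Y : C} {f : X ⟶ Y} (h : HS R f) (Z : C) : HS R (Z ◁ f) := by
  obtain ⟨W, g, k, hT⟩ := distinguished_cocone_triangle f
  rw [HS_iff hT] at h
  rw [HS_iff (tensor_dist Z hT)]
  exact h.wl Z

lemma HS.wr {X Y : C} {f : X ⟶ Y} (h : HS R f) (Z : C) : HS R (f ▷ Z) := by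
  have h1 : f ▷ Z = (β_ X Z).hom ≫ Z ◁ f ≫ (β_ Y Z).inv := by
    rw [← BraidedCategory.braiding_naturality_left_assoc, Iso.hom_inv_id, Category.comp_id]
  rw [h1]
  exact (HS_iso _).comp ((h.wl Z).comp (HS_iso _))

lemma HS.tpm {X Y : C} {f : X ⟶ Y} (h : HS R f) : ∀ n : ℕ, HS R (tpm f n)
  | 0 => HS_iso (𝟙 _)
  | n + 1 => by
    change HS R (f ⊗ₘ Pool.Agent.Z125.UN.tpm f n)
    rw [MonoidalCategory.tensorHom_def]
    exact (h.wr _).comp ((HS.tpm h n).wl _)

end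

end Pool.Agent.T6.H71.AE
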