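import Pool.Agent.T6.H71.AE.Betti

/-!
# Conservative realisations and the action of the symmetric group
-/

set_option autoImplicit false
set_option linter.unusedSectionVars false
set_option linter.unusedSimpArgs false
set_option backward.isDefEq.respectTransparency false
set_option backward.defeqAttrib.useBackward true

open CategoryTheory Limits MonoidalCategory Pretriangulated Triangulated

namespace Pool.Agent.T6.H71.AE

open Pool.Agent.Y116.MT Pool.Agent.V1178.MT Pool.Agent.T6.H13.MT Pool.Agent.TH137.DG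
  Pool.Agent.Z125.UN

universe v u w

open Functor.LaxMonoidal

lemma tensor_vec_zero {E : Type w} [Field E] {A A' B B' : ModuleCat.{w} E} {F : A ⟶ A'}
    {G : B ⟶ B'} (h : F ⊗ₘ G = 0) (hF : F ≠ 0) : G = 0 := by
  have h1 : ∃ x, F x ≠ 0 := by
    by_contra hcon
    push Not at hcon
    exact hF (by ext x; exact hcon x)
  obtain ⟨x, hx⟩ := h1
  obtain ⟨ξ, hξ⟩ : ∃ ξ : Module.Dual E A', ξ (F x) ≠ 0 := by
    by_contra hcon
    push Not at hcon
    exact hx ((Module.forall_dual_apply_eq_zero_iff E _).1 hcon)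
  ext y
  have h2 : (F ⊗ₘ G) (x ⊗ₜ[E] y : (A ⊗ B : ModuleCat.{w} E)) = 0 := by rw [h]; rfl
  have h3 : TensorProduct.lid E B' (TensorProduct.map ξ LinearMap.id
      ((F ⊗ₘ G) (x ⊗ₜ[E] y : (A ⊗ B : ModuleCat.{w} E)))) = ξ (F x) • G y := by
    rfl
  rw [h2] at h3
  have h4 : (0 : B') = ξ (F x) • G y := by
    rw [← h3]
    exact (map_zero ((TensorProduct.lid E B').toLinearMap ∘ₗ TensorProduct.map ξ LinearMap.id)).symm
  have h5 := (smul_eq_zero.1 h4.symm).resolve_left hξ
  exact h5

section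

variable {C : Type u} [Category.{v} C] [Preadditive C] [HasZeroObject C] [HasShift C ℤ]
  [∀ n : ℤ, (shiftFunctor C n).Additive] [Pretriangulated C] [MonoidalCategory C]
  [SymmetricCategory C] [TensorTriangulated C] {E : Type w} [Field E] {R : Realisation C E}

lemma BZ_of_tensor {X Y W W' : C} {f : X ⟶ Y} {g : W ⟶ W'} (h : f ▷ W ≫ Y ◁ g = 0)
    (hf : R.H.map f ≠ 0) : BZ R g := fun j => by
  have h1 : f ⊗ₘ g⟦j⟧' = 0 := by
    rw [MonoidalCategory.tensorHom_def, ← cancel_mono (rShift Y W' j).hom, Category.assoc,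
      rShift_natural_right, ← Category.assoc, rShift_natural_left, Category.assoc,
      ← Functor.map_comp, h, Functor.map_zero, comp_zero, zero_comp]
  have h2 := μ_natural R.H f (g⟦j⟧')
  rw [h1, Functor.map_zero, comp_zero] at h2
  have h3 := mono_mu R Y (W'⟦j⟧)
  have h4 : R.H.map f ⊗ₘ R.H.map (g⟦j⟧') = 0 := by
    rw [← cancel_mono (μ R.H Y (W'⟦j⟧)), h2, zero_comp]
  exact tensor_vec_zero h4 hf

lemma mono_of_ne {Y : C} (f : 𝟙_ C ⟶ Y) (hf : R.H.map f ≠ 0) : Mono (R.H.map f) := by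
  have h1 : Mono (ε R.H ≫ R.H.map f) := by
    rw [ModuleCat.mono_iff_injective, injective_iff_map_eq_zero]
    intro c hc
    by_contra hne
    apply hf
    rw [← cancel_epi (ε R.H), comp_zero]
    ext
    have h2 : ∀ d : (𝟙_ (ModuleCat.{w} E)), (ε R.H ≫ R.H.map f) d = 0 := by
      intro d
      have h3 : d = (show E from d) • (show E from c)⁻¹ • (c : (𝟙_ (ModuleCat.{w} E))) := by
        change (show E from d) = (show E from d) * ((show E from c)⁻¹ * (show E from c))
        rw [inv_mul_cancel₀ hne, mul_one]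
      rw [h3, map_smul, map_smul, hc, smul_zero, smul_zero]
    exact h2 _
  have h2 : R.H.map f = inv (ε R.H) ≫ ε R.H ≫ R.H.map f := by rw [IsIso.inv_hom_id_assoc]
  rw [h2]
  exact mono_comp _ _

lemma HS_of_triangle {Y Q : C} {f : 𝟙_ C ⟶ Y} {u : Y ⟶ Q} {w : Q ⟶ (𝟙_ C)⟦(1 : ℤ)⟧}
    (hT : Triangle.mk f u w ∈ distTriang C) (hf : R.H.map f ≠ 0) : HS R u := by
  intro j
  let _ := Functor.ShiftSequence.tautological R.H ℤ
  rw [show Epi (R.H.map (u⟦j⟧')) ↔ _ from
    R.H.homologySequence_epi_shift_map_mor₂_iff _ hT j (j + 1) rfl,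
    ← R.H.homologySequence_mono_shift_map_mor₁_iff _ hT j (j + 1) rfl]
  change Mono (R.H.map (f⟦j + 1⟧'))
  by_cases hj : j + 1 = 0
  · rw [hj]
    have := mono_of_ne f hf
    exact mono_shift_zero R.H f this
  · have h1 := deg_unit (R := R) (j + 1) hj
    constructor
    intro Z a b _
    exact h1.eq_of_tgt _ _

lemma isZero_cone {X Y Z : C} {f : X ⟶ Y} {g : Y ⟶ Z} {h : Z ⟶ X⟦(1 : ℤ)⟧}
    (hT : Triangle.mk f g h ∈ distTriang C) (hf : ∀ j : ℤ, IsIso (R.H.map (f⟦j⟧'))) (j : ℤ) :
    IsZero (R.H.obj (Z⟦j⟧)) := by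
  have h1 : BZ R g := (HS_iff hT).1 fun j => by
    have := hf j
    infer_instance
  let _ := Functor.ShiftSequence.tautological R.H ℤ
  have h2 : Epi (R.H.map (g⟦j⟧')) := by
    rw [show Epi (R.H.map (g⟦j⟧')) ↔ _ from
      R.H.homologySequence_epi_shift_map_mor₂_iff _ hT j (j + 1) rfl,
      ← R.H.homologySequence_mono_shift_map_mor₁_iff _ hT j (j + 1) rfl]
    change Mono (R.H.map (f⟦j + 1⟧'))
    have := hf (j + 1)
    infer_instance
  rw [IsZero.iff_id_eq_zero, ← cancel_epi (R.H.map (g⟦j⟧')), h1 j, zero_comp, zero_comp]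

lemma isIso_of_H (hc : Conservative R) {X Y : C} {f : X ⟶ Y}
    (hf : ∀ j : ℤ, IsIso (R.H.map (f⟦j⟧'))) : IsIso f := by
  obtain ⟨Z, g, h, hT⟩ := distinguished_cocone_triangle f
  exact isIso1_of_isZero3 hT (hc Z (isZero_cone hT hf))

/-- An idempotent which vanishes in cohomology vanishes. -/
lemma idem_zero (hc : Conservative R) {X : C} {e : X ⟶ X} (he : e ≫ e = e) (hz : BZ R e) :
    e = 0 := by
  have h1 : IsIso (𝟙 X - e) := by
    apply isIso_of_H hc
    intro j
    rw [Functor.map_sub, Functor.map_sub, hz j, sub_zero, CategoryTheory.Functor.map_id,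
      CategoryTheory.Functor.map_id]
    infer_instance
  rw [← cancel_epi (𝟙 X - e), Preadditive.sub_comp, he, Category.id_comp, sub_self, comp_zero]

variable [Linear ℚ C]

/-- The action is determined by its effect on cohomology. -/
lemma act_zero (hc : Conservative R) {X : C} {n : ℕ} {x : SA n}
    (h : BZ R (act X n x : tpow X n ⟶ tpow X n)) : act X n x = 0 := by
  obtain ⟨r, h1, h2⟩ := exists_idem x
  have h3 : (act X n (r * x) : tpow X n ⟶ tpow X n) = 0 := by
    apply idem_zero hc (R := R)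
    · rw [← act_mul, h1]
    · rw [act_mul]
      exact h.comp_right _
  have h4 : (act X n x : tpow X n ⟶ tpow X n) = act X n (r * x) ≫ act X n x := by
    rw [← act_mul, h2]
  rw [h4, h3]
  exact zero_comp

end

end Pool.Agent.T6.H71.AE
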