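import Mathlib

/-!
# Two-sided ideals of the group algebra of the symmetric group over a field of characteristic zero
contain rational elements
-/

set_option autoImplicit false
set_option linter.unusedSectionVars false

open Finset

namespace Pool.Agent.T6.H71.AE

lemma cycleType_pow {n k : ℕ} (σ : Equiv.Perm (Fin n))
    (hk : k.Coprime (Fintype.card (Equiv.Perm (Fin n)))) : (σ ^ k).cycleType = σ.cycleType := by
  have hc : ∀ ρ : Equiv.Perm (Fin n), k.Coprime (orderOf ρ) := fun ρ =>
    Nat.Coprime.coprime_dvd_right (orderOf_dvd_card) hk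
  induction σ using Equiv.Perm.cycle_induction_on with
  | base_one => rw [one_pow]
  | base_cycles σ hσ =>
    have h1 : (σ ^ k).IsCycle := (hσ.pow_iff).2 (hc σ)
    rw [h1.cycleType, hσ.cycleType, Equiv.Perm.support_pow_coprime (hc σ)]
  | induction_disjoint σ τ hd hσ h1 h2 =>
    rw [hd.commute.mul_pow, (hd.pow_disjoint_pow k k).cycleType_mul, hd.cycleType_mul, h1, h2]

lemma isConj_pow {n k : ℕ} (σ : Equiv.Perm (Fin n))
    (hk : k.Coprime (Fintype.card (Equiv.Perm (Fin n)))) : IsConj σ (σ ^ k) :=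
  Equiv.Perm.isConj_iff_cycleType_eq.2 (cycleType_pow σ hk).symm

lemma sum_coprime {E : Type*} [Field E] (N : ℕ) (hN : 0 < N) (τ : ℕ → E) :
    ∑ k ∈ (range N).filter (fun k => k.Coprime N), τ k =
      ∑ d ∈ N.divisors, (ArithmeticFunction.moebius d : E) * ∑ j ∈ range (N / d), τ (d * j) := by
  have h1 : ∀ m : ℕ, 0 < m → ∑ d ∈ m.divisors, (ArithmeticFunction.moebius d : E) =
      if m = 1 then 1 else 0 := by
    intro m hm
    have h2 := congrArg (fun f => f m) (ArithmeticFunction.coe_moebius_mul_coe_zeta (R := E))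
    rw [ArithmeticFunction.coe_mul_zeta_apply, ArithmeticFunction.one_apply] at h2
    simpa using h2
  have h3 : ∀ k ∈ range N, (if k.Coprime N then τ k else 0) =
      ∑ d ∈ N.divisors, if d ∣ k then (ArithmeticFunction.moebius d : E) * τ k else 0 := by
    intro k _
    rw [← sum_filter]
    have h4 : N.divisors.filter (fun d => d ∣ k) = (k.gcd N).divisors := by
      ext d
      simp only [mem_filter, Nat.mem_divisors]
      constructor
      · rintro ⟨⟨h1, h2⟩, h3⟩
        exact ⟨Nat.dvd_gcd h3 h1, (Nat.gcd_pos_of_pos_right _ hN).ne'⟩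
      · rintro ⟨h1, -⟩
        exact ⟨⟨h1.trans (Nat.gcd_dvd_right _ _), hN.ne'⟩, h1.trans (Nat.gcd_dvd_left _ _)⟩
    rw [h4, ← sum_mul, h1 _ (Nat.gcd_pos_of_pos_right _ hN)]
    simp only [Nat.Coprime]
    split_ifs <;> simp
  rw [sum_filter, sum_congr rfl h3, sum_comm]
  refine sum_congr rfl fun d hd => ?_
  rw [← sum_filter, mul_sum]
  have hd1 := Nat.dvd_of_mem_divisors hd
  have hd0 : 0 < d := Nat.pos_of_mem_divisors hd
  symm
  refine sum_nbij (fun j => d * j) ?_ ?_ ?_ ?_
  · intro j hj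
    rw [mem_range] at hj
    rw [mem_filter, mem_range]
    refine ⟨?_, dvd_mul_right _ _⟩
    calc d * j < d * (N / d) := Nat.mul_lt_mul_of_pos_left hj hd0
      _ = N := Nat.mul_div_cancel' hd1
  · intro a _ b _ hab
    exact Nat.eq_of_mul_eq_mul_left hd0 hab
  · intro k hk
    rw [mem_coe, mem_filter, mem_range] at hk
    obtain ⟨hk1, j, rfl⟩ := hk
    refine ⟨j, ?_, rfl⟩
    rw [mem_coe, mem_range]
    exact (Nat.lt_div_iff_mul_lt' hd1 j).2 hk1
  · intro j _
    rfl

section

variable {E : Type*} [Field E] {G : Type*} [Group G] [Fintype G] [DecidableEq G]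

/-- Multiplication by `g` on the left and by `e` on the right. -/
noncomputable def tw (e : MonoidAlgebra E G) (g : G) : MonoidAlgebra E G →ₗ[E] MonoidAlgebra E G :=
  (LinearMap.mulLeft E (MonoidAlgebra.single g (1 : E))) ∘ₗ (LinearMap.mulRight E e)

lemma tw_apply (e : MonoidAlgebra E G) (g : G) (z : MonoidAlgebra E G) :
    tw e g z = MonoidAlgebra.single g (1 : E) * (z * e) := rfl

lemma tw_mul {e : MonoidAlgebra E G} (he : e * e = e) (a b : G) :
    tw e a ∘ₗ tw e b = tw e (a * b) := by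
  apply LinearMap.ext
  intro z
  rw [LinearMap.comp_apply, tw_apply, tw_apply, tw_apply, mul_assoc _ (z * e) e, mul_assoc z e e,
    he, ← mul_assoc, MonoidAlgebra.single_mul_single, mul_one]

lemma trace_tw (e : MonoidAlgebra E G) (g : G) :
    LinearMap.trace E _ (tw e g) = ∑ h : G, e.coeff (h⁻¹ * g⁻¹ * h) := by
  rw [LinearMap.trace_eq_matrix_trace E (MonoidAlgebra.basis G E), Matrix.trace]
  refine sum_congr rfl fun h _ => ?_
  rw [Matrix.diag_apply, LinearMap.toMatrix_apply]
  have h1 : tw e g (MonoidAlgebra.basis G E h) = MonoidAlgebra.single (g * h) 1 * e := by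
    rw [tw_apply, MonoidAlgebra.basis_apply, ← mul_assoc, MonoidAlgebra.single_mul_single, mul_one]
  rw [h1]
  change (MonoidAlgebra.single (g * h) 1 * e).coeff h = _
  rw [MonoidAlgebra.coeff_single_mul_apply, one_mul, mul_inv_rev]

lemma trace_conj {e : MonoidAlgebra E G} (he : e * e = e) {a b : G} (h : IsConj a b) :
    LinearMap.trace E _ (tw e a) = LinearMap.trace E _ (tw e b) := by
  obtain ⟨c, hc⟩ := isConj_iff.1 h
  rw [← hc, ← tw_mul he, ← tw_mul he, LinearMap.comp_assoc]
  have h1 := LinearMap.trace_comp_comm' (R := E) (tw e c) (tw e a ∘ₗ tw e c⁻¹)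
  rw [← h1, LinearMap.comp_assoc, tw_mul he c⁻¹ c, inv_mul_cancel, tw_mul he, mul_one]

lemma trace_idem [CharZero E] {V : Type*} [AddCommGroup V] [Module E V] [Module.Finite E V]
    {f : V →ₗ[E] V} (hf : f ∘ₗ f = f) : LinearMap.trace E V f =
      (Module.finrank E (LinearMap.range f) : E) := by
  have h1 : IsIdempotentElem f := hf
  exact (LinearMap.IsIdempotentElem.isProj_range f h1).trace

lemma trace_sum [CharZero E] {e : MonoidAlgebra E G} (he : e * e = e) {v : G} {M : ℕ}
    (hv : v ^ M = 1) :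
    ∃ q : ℚ, (q : E) = ∑ j ∈ range M, LinearMap.trace E _ (tw e (v ^ j)) := by
  by_cases hM : M = 0
  · subst hM
    exact ⟨0, by simp⟩
  let S : MonoidAlgebra E G →ₗ[E] MonoidAlgebra E G := ∑ j ∈ range M, tw e (v ^ j)
  have h1 : tw e v ∘ₗ S = S := by
    change tw e v ∘ₗ (∑ j ∈ range M, tw e (v ^ j)) = ∑ j ∈ range M, tw e (v ^ j)
    rw [show tw e v ∘ₗ (∑ j ∈ range M, tw e (v ^ j)) = ∑ j ∈ range M, tw e v ∘ₗ tw e (v ^ j) from
      Finset.mul_sum (R := Module.End E (MonoidAlgebra E G)) _ _ _]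
    have h2 : ∀ j ∈ range M, tw e v ∘ₗ tw e (v ^ j) = tw e (v ^ (j + 1)) := fun j _ => by
      rw [tw_mul he, ← pow_succ']
    rw [sum_congr rfl h2]
    have h3 := sum_range_succ (fun j => tw e (v ^ j)) M
    rw [sum_range_succ', hv, pow_zero] at h3
    exact add_right_cancel h3
  have h2 : ∀ i : ℕ, tw e (v ^ i) ∘ₗ S = S := by
    intro i
    induction i with
    | zero =>
      rw [pow_zero]
      nth_rewrite 1 [← h1]
      rw [← LinearMap.comp_assoc, tw_mul he, one_mul, h1]
    | succ i ih => rw [pow_succ', ← tw_mul he, LinearMap.comp_assoc, ih, h1]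
  have h3 : S ∘ₗ S = (M : E) • S := by
    change (∑ j ∈ range M, tw e (v ^ j)) ∘ₗ S = _
    rw [show (∑ j ∈ range M, tw e (v ^ j)) ∘ₗ S = ∑ j ∈ range M, tw e (v ^ j) ∘ₗ S from
      Finset.sum_mul (R := Module.End E (MonoidAlgebra E G)) _ _ _,
      sum_congr rfl (fun j _ => h2 j), sum_const, card_range, Nat.cast_smul_eq_nsmul]
  have hM' : (M : E) ≠ 0 := by exact_mod_cast hM
  have h4 : ((M : E)⁻¹ • S) ∘ₗ ((M : E)⁻¹ • S) = (M : E)⁻¹ • S := by
    rw [LinearMap.smul_comp, LinearMap.comp_smul, h3, smul_smul, smul_smul, mul_assoc,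
      inv_mul_cancel₀ hM', mul_one]
  have h5 := trace_idem h4
  rw [map_smul, smul_eq_mul, inv_mul_eq_iff_eq_mul₀ hM'] at h5
  refine ⟨(M : ℚ) * Module.finrank E (LinearMap.range ((M : E)⁻¹ • S)), ?_⟩
  rw [← map_sum]
  push_cast
  exact h5.symm

end

section

variable {E : Type*} [Field E] [CharZero E] {n : ℕ}

/-- The traces are rational. -/
lemma trace_rat {e : MonoidAlgebra E (Equiv.Perm (Fin n))} (he : e * e = e)
    (g : Equiv.Perm (Fin n)) : ∃ q : ℚ, (q : E) = LinearMap.trace E _ (tw e g) := by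
  set N := Fintype.card (Equiv.Perm (Fin n)) with hN
  have hN0 : 0 < N := Fintype.card_pos
  have h1 := sum_coprime N hN0 (fun k => LinearMap.trace E _ (tw e (g ^ k)))
  have h2 : ∑ k ∈ (range N).filter (fun k => k.Coprime N), LinearMap.trace E _ (tw e (g ^ k)) =
      (((range N).filter (fun k => k.Coprime N)).card : E) * LinearMap.trace E _ (tw e g) := by
    rw [sum_congr rfl (g := fun _ => LinearMap.trace E _ (tw e g)), sum_const, nsmul_eq_mul]
    intro k hk
    rw [mem_filter] at hk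
    exact (trace_conj he (isConj_pow g hk.2)).symm
  rw [h2] at h1
  have h3 : ∀ d ∈ N.divisors, ∃ q : ℚ, (q : E) = ∑ j ∈ range (N / d),
      LinearMap.trace E _ (tw e (g ^ (d * j))) := by
    intro d hd
    have h4 : (g ^ d) ^ (N / d) = 1 := by
      rw [← pow_mul, Nat.mul_div_cancel' (Nat.dvd_of_mem_divisors hd), hN, pow_card_eq_one]
    obtain ⟨q, hq⟩ := trace_sum he h4
    refine ⟨q, ?_⟩
    rw [hq]
    simp only [pow_mul]
  choose! q hq using h3
  set c := ((range N).filter (fun k => k.Coprime N)).card with hc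
  have hc0 : (c : E) ≠ 0 := by
    have : 0 < c := by
      rw [hc, card_pos]
      by_cases h : N = 1
      · exact ⟨0, by rw [h]; simp⟩
      · exact ⟨1, by rw [mem_filter, mem_range]; exact ⟨by omega, Nat.coprime_one_left N⟩⟩
    exact_mod_cast this.ne'
  refine ⟨(c : ℚ)⁻¹ * ∑ d ∈ N.divisors, (ArithmeticFunction.moebius d : ℚ) * q d, ?_⟩
  push_cast
  rw [inv_mul_eq_iff_eq_mul₀ hc0, h1]
  refine sum_congr rfl fun d hd => ?_
  rw [hq d hd]

/-- The extension of scalars. -/
noncomputable def ext (E : Type*) [Field E] [CharZero E] {n : ℕ}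
    (x : MonoidAlgebra ℚ (Equiv.Perm (Fin n))) : MonoidAlgebra E (Equiv.Perm (Fin n)) :=
  ∑ σ, MonoidAlgebra.single σ ((x.coeff σ : ℚ) : E)

/-- A nonzero two-sided ideal of the group algebra over `E` contains nonzero elements with rational
coefficients. -/
theorem exists_rational {B : Type*} [Ring B]
    (Φ : MonoidAlgebra E (Equiv.Perm (Fin n)) →+* B) (hΦ : ¬ Function.Injective Φ) :
    ∃ x : MonoidAlgebra ℚ (Equiv.Perm (Fin n)), x ≠ 0 ∧ Φ (ext E x) = 0 := by
  have : NeZero (Nat.card (Equiv.Perm (Fin n)) : E) := ⟨by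
    exact_mod_cast Nat.card_pos.ne'⟩
  obtain ⟨e, he, hI⟩ := IsSemisimpleRing.ideal_eq_span_idempotent (RingHom.ker Φ)
  have he1 : Φ e = 0 := by
    rw [← RingHom.mem_ker, hI]
    exact Ideal.mem_span_singleton_self e
  have he0 : e ≠ 0 := by
    rintro rfl
    apply hΦ
    rw [RingHom.injective_iff_ker_eq_bot, hI]
    simp
  choose q hq using fun g => trace_rat (E := E) he g
  let x : MonoidAlgebra ℚ (Equiv.Perm (Fin n)) := ∑ σ, MonoidAlgebra.single σ (q σ⁻¹)
  have hx : ∀ σ, x.coeff σ = q σ⁻¹ := by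
    intro σ
    rw [MonoidAlgebra.coeff_sum, Finsupp.finsetSum_apply, sum_eq_single σ]
    · simp
    · intro τ _ h
      simp [h]
    · intro h
      exact absurd (mem_univ _) h
  refine ⟨x, ?_, ?_⟩
  · intro h0
    have h1 : q 1 = 0 := by
      have := hx 1
      rw [h0] at this
      simpa using this.symm
    have h2 := hq 1
    rw [h1] at h2
    have h3 : tw e 1 ∘ₗ tw e 1 = tw e 1 := by rw [tw_mul he, one_mul]
    rw [trace_idem h3] at h2
    have h4 : Module.finrank E (LinearMap.range (tw e 1)) = 0 := by exact_mod_cast h2.symm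
    have h5 : LinearMap.range (tw e 1) = ⊥ := Submodule.finrank_eq_zero.1 h4
    have h6 : tw e 1 1 = 0 := by
      have : tw e 1 1 ∈ LinearMap.range (tw e 1) := ⟨1, rfl⟩
      rwa [h5, Submodule.mem_bot] at this
    rw [tw_apply, one_mul] at h6
    apply he0
    rw [← h6]
    exact (one_mul e).symm
  · have h1 : ext E x = ∑ h : Equiv.Perm (Fin n), MonoidAlgebra.single h (1 : E) * e *
        MonoidAlgebra.single h⁻¹ (1 : E) := by
      ext σ
      rw [MonoidAlgebra.coeff_sum, Finsupp.finsetSum_apply, AE.ext, MonoidAlgebra.coeff_sum,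
        Finsupp.finsetSum_apply, sum_eq_single σ]
      · rw [hx, hq, trace_tw]
        simp only [MonoidAlgebra.coeff_single, Finsupp.single_eq_same, inv_inv]
        refine sum_congr rfl fun h _ => ?_
        rw [MonoidAlgebra.coeff_mul_single_apply, MonoidAlgebra.coeff_single_mul_apply]
        simp [mul_assoc]
      · intro τ _ h
        simp [h]
      · intro h
        exact absurd (mem_univ _) h
    rw [h1, map_sum]
    apply sum_eq_zero
    intro h _
    rw [map_mul, map_mul, he1, mul_zero, zero_mul]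

end

end Pool.Agent.T6.H71.AE
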