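import Pool.Agent.T6.H71.AE.Cons
import Pool.Agent.T6.H71.AE.GA

/-!
# The group algebra of the symmetric group acts unfaithfully on high tensor powers
-/

set_option autoImplicit false
set_option linter.unusedSectionVars false
set_option linter.unusedSimpArgs false
set_option backward.isDefEq.respectTransparency false
set_option backward.defeqAttrib.useBackward true

open CategoryTheory Limits MonoidalCategory Pretriangulated Triangulated

namespace Pool.Agent.T6.H71.AE

open Pool.Agent.Y116.MT Pool.Agent.V1178.MT Pool.Agent.T6.H13.MT Pool.Agent.TH137.DG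
  Pool.Agent.Z125.UN

universe v u w

open Functor.LaxMonoidal

lemma exists_factorial (h : ℕ) : ∃ n : ℕ, h ^ n < n.factorial := by
  have h1 := FloorSemiring.tendsto_pow_div_factorial_atTop (K := ℝ) (h : ℝ)
  have h2 := h1.eventually_lt_const (show (0 : ℝ) < 1 by norm_num)
  obtain ⟨n, hn⟩ := h2.exists
  refine ⟨n, ?_⟩
  rw [div_lt_one (by positivity)] at hn
  exact_mod_cast hn

section

variable {C : Type u} [Category.{v} C] [Preadditive C] [HasZeroObject C] [HasShift C ℤ]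
  [∀ n : ℤ, (shiftFunctor C n).Additive] [Pretriangulated C] [MonoidalCategory C]
  [SymmetricCategory C] [TensorTriangulated C] {E : Type w} [Field E] (R : Realisation C E)

/-- The other inequality from the Künneth formula. -/
lemma kunneth_ge (X Y : C) (m : ℤ) (S : Finset ℤ) (hS : ∀ i, i ∉ S → IsZero (R.H.obj (X⟦i⟧))) :
    hd R (X ⊗ Y) m ≤ ∑ i ∈ S, hd R X i * hd R Y (m - i) := by
  let F : (∀ i : (S : Set ℤ), (R.H.obj (X⟦i.1⟧) ⊗ R.H.obj (Y⟦m⟧⟦-i.1⟧) : ModuleCat.{w} E)) →ₗ[E]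
      R.H.obj (X ⊗ Y⟦m⟧) := kunnethMap R.H X (Y⟦m⟧) ∘ₗ
        DirectSum.lmk E ℤ (fun i : ℤ => (R.H.obj (X⟦i⟧) ⊗ R.H.obj (Y⟦m⟧⟦-i⟧) :
          ModuleCat.{w} E)) S
  have hF : Function.Surjective F := by
    intro z
    obtain ⟨d, rfl⟩ := (R.kunneth X (Y⟦m⟧)).2 z
    refine ⟨fun i => d i.1, ?_⟩
    have h0 : DirectSum.lmk E ℤ (fun i : ℤ => (R.H.obj (X⟦i⟧) ⊗ R.H.obj (Y⟦m⟧⟦-i⟧) :
          ModuleCat.{w} E)) S (fun i => d i.1) = d := by
      ext i
      by_cases hi : i ∈ S
      · exact dif_pos hi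
      · have := tensor_subsingleton_left (N := R.H.obj (Y⟦m⟧⟦-i⟧)) (hS i hi)
        exact Subsingleton.elim _ _
    exact congrArg (kunnethMap R.H X (Y⟦m⟧)) h0
  have hfin : ∀ i : (S : Set ℤ), Module.Finite E
      (R.H.obj (X⟦i.1⟧) ⊗ R.H.obj (Y⟦m⟧⟦-i.1⟧) : ModuleCat.{w} E) := fun i => by
    change Module.Finite E (TensorProduct E (R.H.obj (X⟦i.1⟧)) (R.H.obj (Y⟦m⟧⟦-i.1⟧)))
    infer_instance
  have h1 := LinearMap.finrank_le_finrank_of_surjective hF
  rw [Module.finrank_pi_fintype] at h1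
  have h2 : Module.finrank E (R.H.obj (X ⊗ Y⟦m⟧)) = hd R (X ⊗ Y) m :=
    finrank_congr (R.H.mapIso (rShift X Y m))
  rw [h2] at h1
  refine le_trans h1 (le_of_eq ?_)
  rw [← Finset.sum_coe_sort S]
  refine Finset.sum_congr rfl (fun i _ => ?_)
  have h3 : Module.finrank E (R.H.obj (X⟦i.1⟧) ⊗ R.H.obj (Y⟦m⟧⟦-i.1⟧) : ModuleCat.{w} E) =
    Module.finrank E (R.H.obj (X⟦i.1⟧)) * Module.finrank E (R.H.obj (Y⟦m⟧⟦-i.1⟧)) :=
    Module.finrank_tensorProduct
  have h4 : Module.finrank E (R.H.obj (Y⟦m⟧⟦-i.1⟧)) = hd R Y (m - i.1) := by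
    have := hd_shift R Y m (-i.1)
    rwa [← sub_eq_add_neg] at this
  rw [h3, h4]
  rfl

/-- The total dimension is at most `h`. -/
def TB (X : C) (h : ℕ) : Prop := ∀ S : Finset ℤ, ∑ i ∈ S, hd R X i ≤ h

lemma TB_unit : TB R (𝟙_ C) 1 := by
  intro S
  have h1 : ∀ i ∈ S, i ≠ 0 → hd R (𝟙_ C) i = 0 := fun i _ hi => hd_of_isZero R (deg_unit i hi)
  by_cases h0 : (0 : ℤ) ∈ S
  · rw [Finset.sum_eq_single_of_mem 0 h0 h1, hd_zero]
    have h2 := finrank_congr (asIso (Functor.LaxMonoidal.ε R.H)).symm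
    rw [h2]
    exact (Module.finrank_self E).le
  · rw [Finset.sum_eq_zero (fun i hi => h1 i hi (fun h => h0 (h ▸ hi)))]
    exact Nat.zero_le _

lemma TB_tensor {X Y : C} {h h' : ℕ} (hX : TB R X h) (hY : TB R Y h') : TB R (X ⊗ Y) (h * h') := by
  intro S
  obtain ⟨N, hN⟩ := R.bounded X
  have h1 : ∀ m ∈ S, hd R (X ⊗ Y) m ≤ ∑ i ∈ Finset.Icc (-(N : ℤ)) N, hd R X i * hd R Y (m - i) :=
    fun m _ => kunneth_ge R X Y m _ fun i hi => hN i (by
      rw [Finset.mem_Icc] at hi
      omega)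
  refine (Finset.sum_le_sum h1).trans ?_
  rw [Finset.sum_comm]
  calc ∑ i ∈ Finset.Icc (-(N : ℤ)) N, ∑ m ∈ S, hd R X i * hd R Y (m - i)
      ≤ ∑ i ∈ Finset.Icc (-(N : ℤ)) N, hd R X i * h' := by
        refine Finset.sum_le_sum fun i _ => ?_
        rw [← Finset.mul_sum]
        refine Nat.mul_le_mul_left _ ?_
        have h2 := hY (S.image fun m => m - i)
        rwa [Finset.sum_image (fun x _ y _ hxy => by simpa using hxy)] at h2
    _ = (∑ i ∈ Finset.Icc (-(N : ℤ)) N, hd R X i) * h' := by rw [Finset.sum_mul]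
    _ ≤ h * h' := Nat.mul_le_mul_right _ (hX _)

lemma TB_exists (X : C) : ∃ h, TB R X h := by
  obtain ⟨N, hN⟩ := R.bounded X
  refine ⟨∑ i ∈ Finset.Icc (-(N : ℤ)) N, hd R X i, fun S => ?_⟩
  rw [← Finset.sum_filter_ne_zero]
  refine Finset.sum_le_sum_of_subset ?_
  intro i hi
  rw [Finset.mem_filter] at hi
  by_contra h
  rw [Finset.mem_Icc] at h
  exact hi.2 (hd_of_isZero R (hN i (by omega)))

lemma TB_pow {X : C} {h : ℕ} (hX : TB R X h) : ∀ n : ℕ, TB R (tpow X n) (h ^ n)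
  | 0 => by
    rw [pow_zero]
    exact TB_unit R
  | n + 1 => by
    rw [pow_succ']
    exact TB_tensor R hX (TB_pow hX n)

end

section

variable {C : Type u} [Category.{v} C] [Preadditive C] [HasZeroObject C] [HasShift C ℤ]
  [∀ n : ℤ, (shiftFunctor C n).Additive] [Pretriangulated C] [MonoidalCategory C]
  [SymmetricCategory C] [TensorTriangulated C] {E : Type w} [Field E] (R : Realisation C E)

/-- The action of the group algebra over `E` on the cohomology of the tensor powers. -/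
noncomputable def hact (X : C) (n : ℕ) (j : ℤ) : MonoidAlgebra E (Equiv.Perm (Fin n)) →ₐ[E]
    Module.End E (R.H.obj ((tpow X n)⟦j⟧)) :=
  MonoidAlgebra.lift E (Module.End E (R.H.obj ((tpow X n)⟦j⟧))) (Equiv.Perm (Fin n))
    { toFun := fun σ => (R.H.map ((permAct X n σ)⟦j⟧')).hom
      map_one' := by
        rw [permAct_one, CategoryTheory.Functor.map_id, CategoryTheory.Functor.map_id]
        rfl
      map_mul' := fun τ ρ => by
        rw [← permAct_mul, Functor.map_comp, Functor.map_comp]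
        rfl }

lemma hact_single (X : C) (n : ℕ) (j : ℤ) (σ : Equiv.Perm (Fin n)) (c : E) :
    hact R X n j (MonoidAlgebra.single σ c) = c • (R.H.map ((permAct X n σ)⟦j⟧')).hom :=
  MonoidAlgebra.lift_single _ _ _

variable [Linear ℚ C] [CharZero E]

lemma hact_ext (X : C) (n : ℕ) (j : ℤ) (x : SA n) : hact R X n j (ext E x) =
    (R.H.map ((show tpow X n ⟶ tpow X n from act X n x)⟦j⟧')).hom := by
  conv_rhs => rw [sum_single x]
  rw [map_sum, AE.ext, map_sum]
  let F : (tpow X n ⟶ tpow X n) →+ Module.End E (R.H.obj ((tpow X n)⟦j⟧)) :=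
    { toFun := fun f => (R.H.map (f⟦j⟧')).hom
      map_zero' := by
        rw [Functor.map_zero, Functor.map_zero]
        rfl
      map_add' := fun f g => by
        rw [Functor.map_add, Functor.map_add]
        rfl }
  change _ = F (∑ σ, act X n (MonoidAlgebra.single σ (x.coeff σ)) : tpow X n ⟶ tpow X n)
  rw [map_sum]
  refine Finset.sum_congr rfl fun σ _ => ?_
  rw [hact_single, act_single]
  exact (map_ratCast_smul F ℚ E (x.coeff σ) (permAct X n σ)).symm

lemma exists_act_zero (hc : Conservative R) (X : C) :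
    ∃ (n : ℕ) (x : SA n), x ≠ 0 ∧ act X n x = 0 := by
  obtain ⟨h, hh⟩ := TB_exists R X
  obtain ⟨n, hn⟩ := exists_factorial (h ^ 2)
  obtain ⟨N, hN⟩ := R.bounded (tpow X n)
  let S := Finset.Icc (-(N : ℤ)) N
  let T : MonoidAlgebra E (Equiv.Perm (Fin n)) →ₐ[E]
      (∀ j : (S : Set ℤ), Module.End E (R.H.obj ((tpow X n)⟦j.1⟧))) :=
    AlgHom.pi fun j => hact R X n j.1
  have hT : ¬ Function.Injective T.toRingHom := by
    intro hT
    have h1 := LinearMap.finrank_le_finrank_of_injective (f := T.toLinearMap) hT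
    rw [Module.finrank_pi_fintype] at h1
    have h2 : Module.finrank E (MonoidAlgebra E (Equiv.Perm (Fin n))) = n.factorial := by
      rw [Module.finrank_eq_card_basis (MonoidAlgebra.basis (Equiv.Perm (Fin n)) E),
        Fintype.card_perm, Fintype.card_fin]
    rw [h2] at h1
    have h3 : ∑ i : (S : Set ℤ), Module.finrank E (Module.End E (R.H.obj ((tpow X n)⟦i.1⟧))) =
        ∑ i ∈ S, hd R (tpow X n) i ^ 2 := by
      rw [← Finset.sum_coe_sort S]
      refine Finset.sum_congr rfl fun i _ => ?_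
      rw [sq]
      exact Module.finrank_linearMap _ _ _ _
    rw [h3] at h1
    have h4 : ∑ i ∈ S, hd R (tpow X n) i ^ 2 ≤ (∑ i ∈ S, hd R (tpow X n) i) ^ 2 := by
      rw [sq (∑ i ∈ S, hd R (tpow X n) i), Finset.sum_mul]
      refine Finset.sum_le_sum fun i hi => ?_
      rw [sq]
      exact Nat.mul_le_mul_left _ (Finset.single_le_sum (f := fun i => hd R (tpow X n) i)
        (fun _ _ => Nat.zero_le _) hi)
    have h5 := Nat.pow_le_pow_left (TB_pow R hh n S) 2
    have h6 : (h ^ n) ^ 2 = (h ^ 2) ^ n := by rw [← pow_mul, ← pow_mul, mul_comm]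
    rw [h6] at h5
    omega
  obtain ⟨x, hx, hx0⟩ := exists_rational T.toRingHom hT
  refine ⟨n, x, hx, act_zero hc (R := R) fun j => ?_⟩
  by_cases hj : j ∈ S
  · have h1 := congrFun hx0 ⟨j, hj⟩
    have h2 : hact R X n j (ext E x) = 0 := h1
    rw [hact_ext] at h2
    exact ModuleCat.hom_ext h2
  · have h1 := hN j (by
      rw [Finset.mem_Icc] at hj
      omega)
    exact h1.eq_of_src _ _

end

end Pool.Agent.T6.H71.AE
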