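import Pool.Agent.T6.H71.AE.Weight
import Pool.Agent.T6.H13.MT.Main

/-!
# Polarised objects
-/

set_option autoImplicit false
set_option linter.unusedSectionVars false
set_option linter.unusedSimpArgs false
set_option backward.isDefEq.respectTransparency false
set_option backward.defeqAttrib.useBackward true

open CategoryTheory Limits MonoidalCategory Pretriangulated Triangulated

namespace Pool.Agent.T6.H71.AE

open Pool.Agent.Y116.MT Pool.Agent.V1178.MT Pool.Agent.T6.H13.MT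

universe v u w

section

variable {C : Type u} [Category.{v} C] [Preadditive C] [HasZeroObject C] [HasShift C ℤ]
  [∀ n : ℤ, (shiftFunctor C n).Additive] [Pretriangulated C] [MonoidalCategory C]
  [SymmetricCategory C] [TensorTriangulated C] {E : Type w} [Field E]

/-- A polarised object `M`, of central degree `e`: Lefschetz operators
`L k : M ⟶ (T k ⊗ M)⟦2k⟧` which induce isomorphisms `H^(e-k)(M) ≅ H^(e+k)(T k ⊗ M)` (hard
Lefschetz), and a pairing on `M⟦e-k⟧` with values in the Tate object `T (k - e)` which is definite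
in the following sense (a consequence of the Hodge-Riemann relations): if `g : N ⟶ M⟦e-k⟧` is a
morphism whose image in cohomology is primitive, and if the restriction of the pairing along `g`
vanishes, then `g` vanishes in cohomology. -/
structure Polarised (R : Realisation C E) (T : ℤ → C) (M : C) where
  /-- the central degree -/
  e : ℤ
  /-- the powers of the Lefschetz operator -/
  L (k : ℕ) : M ⟶ (T k ⊗ M)⟦(2 * k : ℤ)⟧
  lefschetz (k : ℕ) : IsIso (R.H.map ((L k)⟦e - k⟧'))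
  /-- the pairing on the cohomology of degree `e - k` -/
  form (k : ℕ) : M⟦e - k⟧ ⊗ M⟦e - k⟧ ⟶ T (k - e)
  hodge_riemann (k : ℕ) (N : C) (g : N ⟶ M⟦e - k⟧) :
    R.H.map (g ≫ (L (k + 1))⟦e - k⟧') = 0 → (g ⊗ₘ g) ≫ form k = 0 → R.H.map g = 0

variable {R : Realisation C E} {t : TStructure C} {T : ℤ → C}

lemma IsTate.iso (hT : IsTate C T) {m n : ℤ} (h : m + n = 0) : Nonempty (T m ⊗ T n ≅ 𝟙_ C) := by
  obtain ⟨e⟩ := hT.add m n
  obtain ⟨e'⟩ := hT.zero
  exact ⟨e ≪≫ eqToIso (by rw [h]) ≪≫ e'⟩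

section

variable [IsTriangulated C] (hS : Neg R t) (ht : TensorCompat t) (hT : IsTate C T)
  (hd : ∀ m, R.Deg (T m) 0) (hh : ∀ m, Hrt t (T m))

include hS ht hT hd hh

lemma W0_untwist (m : ℤ) {X : C} (h : W0 R t (T m ⊗ X)) : W0 R t X := by
  obtain ⟨e⟩ := hT.iso (m := -m) (n := m) (by ring)
  exact h.twist ht (hd (-m)) (hh m).1 e

lemma W0_twist (m : ℤ) {X : C} (h : W0 R t X) : W0 R t (T m ⊗ X) := by
  obtain ⟨e⟩ := hT.iso (m := -m) (n := m) (by ring)
  apply W0_untwist hS ht hT hd hh (-m)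
  exact h.iso ((λ_ X).symm ≪≫ whiskerRightIso e.symm X ≪≫ α_ _ _ _)

lemma Polarised.up {M : C} (p : Polarised R T M) (k : ℕ) (h : W0 R t (M⟦p.e - k⟧)) :
    W0 R t (M⟦p.e + k⟧) := by
  have h1 := h.transfer hS ((p.L k)⟦p.e - k⟧') (p.lefschetz k)
  have h2 : W0 R t ((T k ⊗ M)⟦p.e + k⟧) :=
    h1.iso ((shiftFunctorAdd' C (2 * k : ℤ) (p.e - k) (p.e + k) (by ring)).app _).symm
  exact W0_untwist hS ht hT hd hh k (h2.iso (rShift (T k) M (p.e + k)).symm)

lemma Polarised.step {M : C} (p : Polarised R T M) (k : ℕ)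
    (h : W0 R t (M⟦p.e - (k + 2 : ℕ)⟧)) : W0 R t (M⟦p.e - k⟧) := by
  have h1 := p.up hS ht hT hd hh (k + 2) h
  have h2 := W0_twist hS ht hT hd hh ((k + 1 : ℕ) : ℤ) h1
  have h3 : W0 R t ((T ((k + 1 : ℕ) : ℤ) ⊗ M)⟦(2 * ((k + 1 : ℕ) : ℤ) : ℤ)⟧⟦p.e - k⟧) :=
    (h2.iso (rShift _ M _)).iso ((shiftFunctorAdd' C (2 * ((k + 1 : ℕ) : ℤ) : ℤ) (p.e - k)
      (p.e + (k + 2 : ℕ)) (by push_cast; ring)).app _)
  intro A hA g
  apply p.hodge_riemann k A g
  · exact h3 A hA _
  · have h4 : t.IsLE (A ⊗ A) (-2) := by simpa using ht.isLE hA hA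
    exact t.zero_of_isLE_of_isGE _ (-2) 0 (by omega) h4 (hh _).2

lemma Polarised.down {M : C} (p : Polarised R T M) (k : ℕ) : W0 R t (M⟦p.e - k⟧) := by
  obtain ⟨N, hN⟩ := R.bounded M
  have key : ∀ n k : ℕ, N + p.e.natAbs < n + k → W0 R t (M⟦p.e - k⟧) := by
    intro n
    induction n using Nat.strong_induction_on with
    | _ n ih =>
      intro k hk
      by_cases hn : n = 0
      · subst hn
        exact W0_of_isZero (hN _ (by omega))
      · by_cases hn1 : n = 1
        · subst hn1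
          exact p.step hS ht hT hd hh k (ih 0 (by omega) (k + 2) (by omega))
        · exact p.step hS ht hT hd hh k (ih (n - 2) (by omega) (k + 2) (by omega))
  exact key (N + p.e.natAbs + 1) k (by omega)

lemma Polarised.all {M : C} (p : Polarised R T M) (j : ℤ) : W0 R t (M⟦j⟧) := by
  rcases le_total j p.e with h | h
  · have := p.down hS ht hT hd hh (p.e - j).toNat
    rwa [show p.e - ((p.e - j).toNat : ℤ) = j by omega] at this
  · have := p.up hS ht hT hd hh _ (p.down hS ht hT hd hh (j - p.e).toNat)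
    rwa [show p.e + ((j - p.e).toNat : ℤ) = j by omega] at this

lemma W0_all {G : ObjectProperty C} (hG : ThickGenerates G)
    (hp : ∀ X, G X → Nonempty (Polarised R T X)) (X : C) (j : ℤ) : W0 R t (X⟦j⟧) := by
  revert j
  apply hG (fun X => ∀ j : ℤ, W0 R t (X⟦j⟧))
  · intro X hX j
    obtain ⟨p⟩ := hp X hX
    exact p.all hS ht hT hd hh j
  · intro X n h j
    exact (h (n + j)).iso ((shiftFunctorAdd C n j).app X)
  · intro Tr hTr h1 h2 j
    have h3 := rotD (f := Tr.mor₁) (g := Tr.mor₂) (h := Tr.mor₃) hTr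
    have h4 := Triangle.shift_distinguished _ h3 j
    refine W0.ext hS h4 (h2 j) ?_
    exact (h1 (1 + j)).iso ((shiftFunctorAdd C 1 j).app _)
  · intro X Y i r hir h j
    exact (h j).retract (i⟦j⟧') (r⟦j⟧') (by
      rw [← Functor.map_comp, hir, CategoryTheory.Functor.map_id])

lemma right_exact {G : ObjectProperty C} (hG : ThickGenerates G)
    (hp : ∀ X, G X → Nonempty (Polarised R T X)) {X : C} {n i : ℤ} (hX : t.IsLE X n)
    (hi : n < i) : IsZero (R.H.obj (X⟦i⟧)) := by
  have h1 : t.IsLE (X⟦i⟧) (n - i) := t.isLE_shift X n i (n - i)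
  have h2 := W0_all hS ht hT hd hh hG hp X i (X⟦i⟧) (t.isLE_of_le _ (n - i) (-1) (by omega)) (𝟙 _)
  rw [IsZero.iff_id_eq_zero, ← CategoryTheory.Functor.map_id, h2]

end

end

end Pool.Agent.T6.H71.AE
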