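import Pool.Agent.T6.H71.AE.Gen

/-!
# Left exactness
-/

set_option autoImplicit false
set_option linter.unusedSectionVars false
set_option linter.unusedSimpArgs false
set_option backward.isDefEq.respectTransparency false
set_option backward.defeqAttrib.useBackward true

open CategoryTheory Limits MonoidalCategory Pretriangulated Triangulated

namespace Pool.Agent.T6.H71.AE

open Pool.Agent.Y116.MT Pool.Agent.V1178.MT Pool.Agent.T6.H13.MT

universe v u w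

open Functor.LaxMonoidal

section

variable {C : Type u} [Category.{v} C] [Preadditive C] [HasZeroObject C] [HasShift C ℤ]
  [∀ n : ℤ, (shiftFunctor C n).Additive] [Pretriangulated C] [MonoidalCategory C]
  [SymmetricCategory C] [TensorTriangulated C] {E : Type w} [Field E] {R : Realisation C E}
  {t : TStructure C}

lemma isIso_mu_of {X Y : C} (h : ∀ i : ℤ, i ≠ 0 →
    IsZero (R.H.obj (X⟦i⟧)) ∨ IsZero (R.H.obj (Y⟦-i⟧))) : IsIso (μ R.H X Y) := by
  have h1 := toModule_single_bij (E := E)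
    (M := fun i : ℤ => (R.H.obj (X⟦i⟧) ⊗ R.H.obj (Y⟦-i⟧) : ModuleCat.{w} E))
    (fun i : ℤ => (μ R.H (X⟦i⟧) (Y⟦-i⟧) ≫ R.H.map (shiftTensorIso X Y i).hom).hom) 0
    (fun i hi => by
      rcases h i hi with h | h
      · exact tensor_subsingleton_left h
      · exact tensor_subsingleton_right h) (R.kunneth X Y)
  have h2 : IsIso (μ R.H (X⟦(0 : ℤ)⟧) (Y⟦-(0 : ℤ)⟧) ≫ R.H.map (shiftTensorIso X Y 0).hom) :=
    (ConcreteCategory.isIso_iff_bijective _).2 h1
  have h3 : IsIso (μ R.H (X⟦(0 : ℤ)⟧) (Y⟦-(0 : ℤ)⟧)) :=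
    IsIso.of_isIso_comp_right _ (R.H.map (shiftTensorIso X Y 0).hom)
  exact (isIso_mu_iff ((shiftFunctorZero C ℤ).app X)
    ((shiftFunctorZero' C (-0 : ℤ) (by simp)).app Y)).1 h3

lemma mono_of_BZ {X Y Z : C} {f : X ⟶ Y} {g : Y ⟶ Z} {h : Z ⟶ X⟦(1 : ℤ)⟧}
    (hT : Triangle.mk f g h ∈ distTriang C) (hz : BZ R h) (n : ℤ) : Mono (R.H.map (f⟦n⟧')) := by
  have h1 : HS R g := (HS_iff (rotD hT)).2 hz
  let _ := Functor.ShiftSequence.tautological R.H ℤ
  exact (R.H.homologySequence_mono_shift_map_mor₁_iff _ hT (n - 1) n (by omega)).2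
    ((R.H.homologySequence_epi_shift_map_mor₂_iff _ hT (n - 1) n (by omega)).1 (h1 (n - 1)))

variable [MonoidalPreadditive C] [RightRigidCategory C]

/-- If the coevaluation comes from the product of the cohomologies in degree zero, the cohomology
is concentrated in degree zero. -/
lemma deg_of_isIso_mu {N : C} (h : IsIso (μ R.H N (Nᘁ : C))) : R.Deg N 0 := by
  intro j hj
  have hV : IsZero (R.H.obj ((𝟙_ C)⟦j⟧)) := deg_unit j hj
  refine IsZero.of_iso ?_ (R.H.mapIso (shiftUnitIso N j).symm)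
  generalize (𝟙_ C)⟦j⟧ = V at hV
  let θ : (Nᘁ : C) ⊗ (N ⊗ V) ⟶ V := (α_ _ _ _).inv ≫ ε_ N Nᘁ ▷ V ≫ (λ_ V).hom
  have h1 : (λ_ (N ⊗ V)).inv ≫ η_ N Nᘁ ▷ (N ⊗ V) ≫ (α_ N Nᘁ (N ⊗ V)).hom ≫ N ◁ θ =
      𝟙 (N ⊗ V) := by
    calc _ = 𝟙 (N ⊗ V) ⊗≫ (η_ N Nᘁ ▷ N ≫ (α_ N Nᘁ N).hom ≫ N ◁ ε_ N Nᘁ) ▷ V ⊗≫
        𝟙 (N ⊗ V) := by monoidal
      _ = 𝟙 (N ⊗ V) := by
        rw [ExactPairing.evaluation_coevaluation]
        monoidal
  have h3 : R.H.map θ = 0 := hV.eq_of_tgt _ _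
  rw [IsZero.iff_id_eq_zero, ← CategoryTheory.Functor.map_id, ← h1, Functor.map_comp,
    Functor.map_comp, Functor.map_comp, ← left_unitality_inv]
  have h4 : ε R.H ≫ R.H.map (η_ N Nᘁ) = (ε R.H ≫ R.H.map (η_ N Nᘁ) ≫ inv (μ R.H N (Nᘁ : C))) ≫
      μ R.H N (Nᘁ : C) := by simp
  simp only [Category.assoc]
  rw [← μ_natural_left_assoc, ← comp_whiskerRight_assoc, h4, comp_whiskerRight_assoc]
  rw [associativity_assoc, ← μ_natural_right, h3]
  rw [show R.H.obj N ◁ (0 : R.H.obj ((Nᘁ : C) ⊗ (N ⊗ V)) ⟶ R.H.obj V) = 0 from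
    (tensorLeft _).map_zero _ _]
  simp

variable (ht : TensorCompat t) (hu : Hrt t (𝟙_ C))
  (hR : ∀ (X : C) (n i : ℤ), t.IsLE X n → n < i → IsZero (R.H.obj (X⟦i⟧)))

include ht hu hR

/-- The cohomology of the heart is concentrated in degree zero. -/
lemma heart_deg {N : C} (hN : Hrt t N) : R.Deg N 0 := by
  apply deg_of_isIso_mu
  apply isIso_mu_of
  intro i hi
  rcases lt_or_gt_of_ne hi with h | h
  · exact Or.inr (hR _ 0 (-i) (dual_hrt ht hu hN).1 (by omega))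
  · exact Or.inl (hR _ 0 i hN.1 h)

lemma heart_deg' {N : C} {m : ℤ} (h1 : t.IsLE N m) (h2 : t.IsGE N m) {i : ℤ} (hi : i ≠ m) :
    IsZero (R.H.obj (N⟦i⟧)) := by
  have h3 : Hrt t (N⟦m⟧) := ⟨t.isLE_shift N m m 0, t.isGE_shift N m m 0⟩
  exact (heart_deg ht hu hR h3 (i - m) (by omega)).of_iso
    (R.H.mapIso ((shiftFunctorAdd' C m (i - m) i (by omega)).app N))

lemma left_exact_aux (n : ℕ) : ∀ X : C, t.IsGE X 0 → t.IsLE X (n - 1) → ∀ i : ℤ, i < 0 →
    IsZero (R.H.obj (X⟦i⟧)) := by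
  induction n with
  | zero =>
    intro X h1 h2 i hi
    have h3 : IsZero X := t.isZero X ((0 : ℕ) - 1 : ℤ) 0 (by simp)
    exact R.H.map_isZero (isZero_shift h3 i)
  | succ n ih =>
    intro X h1 h2 i hi
    have h2' : t.IsLE X n := by
      rwa [show (((n + 1 : ℕ) : ℤ) - 1) = n by push_cast; ring] at h2
    obtain ⟨A, N, hA, hN, f, g, h, hT⟩ := t.exists_triangle X (n - 1) n (by ring)
    have hA1 : t.IsLE A (n - 1) := ⟨hA⟩
    have hN1 : t.IsGE N n := ⟨hN⟩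
    have hN2 : t.IsLE N n := isLE3 hT (t.isLE_of_le A ((n : ℤ) - 1) (n + 1)) h2'
    have hA2 : t.IsGE A 0 := isGE1 hT h1 (t.isGE_of_ge N (0 - 1) n (by omega))
    exact hz2 R.H hT i (ih A hA2 hA1 i hi) (heart_deg' ht hu hR hN2 hN1 (by omega))

lemma bounded_above (hS : Neg R t) (hc : Conservative R)
    (hge : ∀ X : C, (∀ n : ℤ, t.ge n X) → IsZero X) (X : C) : ∃ N : ℕ, t.IsLE X N := by
  obtain ⟨N, hN⟩ := R.bounded X
  refine ⟨N, ?_⟩
  obtain ⟨A, D, hA, hD, f, g, h, hT⟩ := t.exists_triangle X N (N + 1) rfl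
  have hA1 : t.IsLE A N := ⟨hA⟩
  have key : ∀ n : ℕ, t.IsGE D (N + 1 + n) := by
    intro n
    induction n with
    | zero => simpa using ⟨hD⟩
    | succ n ih =>
      set m : ℤ := N + 1 + n with hm
      obtain ⟨N', D', hN', hD', f', g', h', hT'⟩ := t.exists_triangle D m (m + 1) rfl
      have h1 : t.IsLE N' m := ⟨hN'⟩
      have h2 : t.IsGE D' (m + 1) := ⟨hD'⟩
      have h3 : t.IsGE N' m := isGE1 hT' ih (t.isGE_of_ge D' (m - 1) (m + 1))
      have h4 : t.IsLE (N'⟦(1 : ℤ)⟧) (m - 1) := t.isLE_shift N' m 1 (m - 1)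
      have h5 := mono_of_BZ hT' (hS _ _ h' (m + 1) (m - 1) (by omega) h2 h4) m
      have h6 : IsZero (R.H.obj (D⟦m⟧)) := hz3 R.H hT m (hN m (by omega))
        (hR A N (m + 1) hA1 (by omega))
      have h7 : IsZero (R.H.obj (N'⟦m⟧)) := by
        rw [IsZero.iff_id_eq_zero, ← cancel_mono (R.H.map (f'⟦m⟧'))]
        exact h6.eq_of_tgt _ _
      have h8 : IsZero N' := by
        apply hc
        intro i
        by_cases hi : i = m
        · rw [hi]
          exact h7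
        · exact heart_deg' ht hu hR h1 h3 hi
      have h9 := isIso2_of_isZero1 hT' h8
      have h10 := @TStructure.isGE_of_iso _ _ _ _ _ _ _ t _ _ (asIso g').symm _ h2
      rwa [show (N : ℤ) + 1 + ((n + 1 : ℕ) : ℤ) = m + 1 by rw [hm]; push_cast; ring]
  have h1 : IsZero D := hge D fun n => by
    have h2 := key (n - (N + 1)).toNat
    exact (t.isGE_of_ge D n (N + 1 + ((n - (N + 1)).toNat : ℤ)) (by omega)).ge
  have h2 := isIso1_of_isZero3 hT h1
  exact @TStructure.isLE_of_iso _ _ _ _ _ _ _ t _ _ (asIso f) _ hA1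

/-- t-exactness. -/
theorem texact_of (hS : Neg R t) (hc : Conservative R)
    (hge : ∀ X : C, (∀ n : ℤ, t.ge n X) → IsZero X) : TExact t R where
  le X hX i hi := hR X 0 i ⟨hX⟩ hi
  ge X hX i hi := by
    obtain ⟨N, hN⟩ := bounded_above ht hu hR hS hc hge X
    exact left_exact_aux ht hu hR (N + 1) X ⟨hX⟩ (by simpa using hN) i hi

end

end Pool.Agent.T6.H71.AE
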