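import Pool.Agent.T6.H71.AE.Left

/-!
# Exactness of the realisations is automatic
-/

set_option autoImplicit false
set_option linter.unusedSectionVars false
set_option linter.unusedSimpArgs false
set_option backward.isDefEq.respectTransparency false
set_option backward.defeqAttrib.useBackward true

open CategoryTheory Limits MonoidalCategory Pretriangulated Triangulated

namespace Pool.Agent.T6.H71.AE

open Pool.Agent.Y116.MT Pool.Agent.V1178.MT Pool.Agent.T6.H13.MT

universe v u w

section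

variable {C : Type u} [Category.{v} C] [Preadditive C] [HasZeroObject C] [HasShift C ℤ]
  [∀ n : ℤ, (shiftFunctor C n).Additive] [Pretriangulated C] [MonoidalCategory C]
  [SymmetricCategory C] [TensorTriangulated C] [MonoidalPreadditive C]
  {t : TStructure C} {T : ℤ → C}

lemma whisker_faithful {P P' X Y : C} (e : P ⊗ P' ≅ 𝟙_ C) (g : X ⟶ Y) (h : P' ◁ g = 0) :
    g = 0 := by
  have h3 : g = (λ_ X).inv ≫ (e.inv ▷ X) ≫ (α_ P P' X).hom ≫ P ◁ (P' ◁ g) ≫ (α_ P P' Y).inv ≫
      (e.hom ▷ Y) ≫ (λ_ Y).hom := by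
    rw [← associator_naturality_right_assoc, Iso.hom_inv_id_assoc, whisker_exchange_assoc,
      ← comp_whiskerRight_assoc]
    simp
  rw [h3, h]
  simp

lemma tate_hrt (ht : TensorCompat t) (hu : Hrt t (𝟙_ C)) (hT : IsTate C T) (h1 : Hrt t (T 1))
    (m : ℤ) : Hrt t (T m) := by
  have hm1 : Hrt t (T (-1)) := by
    obtain ⟨e⟩ := hT.iso (m := 1) (n := -1) (by ring)
    obtain ⟨e'⟩ := hT.iso (m := -1) (n := 1) (by ring)
    constructor
    · rw [t.isLE_iff_orthogonal 0 1 (by omega)]
      intro Y f hY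
      apply whisker_faithful e'
      have h2 : t.IsLE (T 1 ⊗ T (-1)) 0 := (hu.iso e.symm).1
      have h3 : t.IsGE (T 1 ⊗ Y) 1 := by simpa using ht.isGE h1.2 hY
      exact t.zero_of_isLE_of_isGE _ 0 1 (by omega) h2 h3
    · rw [t.isGE_iff_orthogonal (-1) 0 (by omega)]
      intro X f hX
      apply whisker_faithful e'
      have h2 : t.IsGE (T 1 ⊗ T (-1)) 0 := (hu.iso e.symm).2
      have h3 : t.IsLE (T 1 ⊗ X) (-1) := by simpa using ht.isLE h1.1 hX
      exact t.zero_of_isLE_of_isGE _ (-1) 0 (by omega) h3 h2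
  obtain ⟨e0⟩ := hT.zero
  induction m using Int.induction_on with
  | zero => exact hu.iso e0.symm
  | succ n ih =>
    obtain ⟨e⟩ := hT.add n 1
    exact (ht.hrt ih h1).iso e
  | pred n ih =>
    obtain ⟨e⟩ := hT.add (-n) (-1)
    exact (ht.hrt ih hm1).iso (e ≪≫ eqToIso (by congr 1))

end

section

variable {C : Type u} [Category.{v} C] [Preadditive C] [HasZeroObject C] [HasShift C ℤ]
  [∀ n : ℤ, (shiftFunctor C n).Additive] [Pretriangulated C] [IsTriangulated C]
  [MonoidalCategory C] [SymmetricCategory C] [TensorTriangulated C] [MonoidalPreadditive C]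
  [RightRigidCategory C] [Linear ℚ C] [IsIdempotentComplete C]

/-- Automatic exactness, for one realisation. -/
theorem texact {E : Type w} [Field E] [CharZero E] {R : Realisation C E} {T : ℤ → C}
    (hT : IsTate C T) (hd : ∀ m, R.Deg (T m) 0) {G : ObjectProperty C} (hG : ThickGenerates G)
    (hp : ∀ X, G X → Nonempty (Polarised R T X)) {t : TStructure C} (hc : Conservative R)
    (ht : TensorCompat t) (h1 : Hrt t (T 1)) (hle : ∀ X : C, (∀ n : ℤ, t.le n X) → IsZero X)
    (hge : ∀ X : C, (∀ n : ℤ, t.ge n X) → IsZero X) : TExact t R := by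
  have hu : Hrt t (𝟙_ C) := unit_hrt ht hle hge
  have hS : Neg R t := fun _ _ g _ _ hab hZ hX => neg_zero' ht hu hle hc g hab hZ hX
  exact texact_of ht hu (fun X n i hX hi => right_exact hS ht hT hd (tate_hrt ht hu hT h1) hG hp
    hX hi) hS hc hge

/-- A t-structure is motivic if and only if it is non-degenerate and compatible with the tensor
product and its heart contains the Tate object, and the realisation is conservative. -/
theorem main (hid : ∀ e : 𝟙_ C ⟶ 𝟙_ C, e ≫ e = e → e = 0 ∨ e = 𝟙 _)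
    {Λ : Type*} {E : Λ → Type w} [∀ l, Field (E l)] (R : ∀ l, Realisation C (E l)) (l₀ : Λ)
    [CharZero (E l₀)]
    (hR : ∀ (l : Λ) (X : C), IsZero ((R l).H.obj X) ↔ IsZero ((R l₀).H.obj X))
    {T : ℤ → C} (hT : IsTate C T) (hd : ∀ m, (R l₀).Deg (T m) 0)
    {G : ObjectProperty C} (hG : ThickGenerates G)
    (hp : ∀ X, G X → Nonempty (Polarised (R l₀) T X)) (t : TStructure C) :
    IsMotivic t R ↔ Conservative (R l₀) ∧ TensorCompat t ∧ Hrt t (T 1) ∧
      (∀ X : C, (∀ n : ℤ, t.le n X) → IsZero X) ∧ (∀ X : C, (∀ n : ℤ, t.ge n X) → IsZero X) := by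
  constructor
  · intro h
    have ht : TensorCompat t := ⟨h.tensor_le, h.tensor_ge⟩
    have hu : Hrt t (𝟙_ C) := unit_hrt ht h.nondeg_le h.nondeg_ge
    have he : TExact t (R l₀) := ⟨h.exact_le l₀, h.exact_ge l₀⟩
    have hc : Conservative (R l₀) :=
      fun X hX => conservative ht he hu hid h.nondeg_le h.nondeg_ge hX
    exact ⟨hc, ht, ⟨isLE_of hc he fun i hi => hd 1 i (by omega),
      isGE_of hc he fun i hi => hd 1 i (by omega)⟩, h.nondeg_le, h.nondeg_ge⟩
  · rintro ⟨hc, ht, h1, hle, hge⟩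
    have he := texact hT hd hG hp hc ht h1 hle hge
    exact ⟨hle, hge, ht.le, ht.ge, fun l X hX i hi => (hR l _).2 (he.le X hX i hi),
      fun l X hX i hi => (hR l _).2 (he.ge X hX i hi)⟩

end

end Pool.Agent.T6.H71.AE
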