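import Pool.Agent.T6.H71.AE.TMono

/-!
# Morphisms to negative degrees vanish in cohomology
-/

set_option autoImplicit false
set_option linter.unusedSectionVars false
set_option linter.unusedSimpArgs false
set_option backward.isDefEq.respectTransparency false
set_option backward.defeqAttrib.useBackward true

open CategoryTheory Limits MonoidalCategory Pretriangulated Triangulated

namespace Pool.Agent.T6.H71.AE

open Pool.Agent.Y116.MT Pool.Agent.V1178.MT Pool.Agent.T6.H13.MT Pool.Agent.TH137.DG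
  Pool.Agent.Z125.UN

universe v u w

section

variable {C : Type u} [Category.{v} C] [Preadditive C] [HasZeroObject C] [HasShift C ℤ]
  [∀ n : ℤ, (shiftFunctor C n).Additive] [Pretriangulated C] [MonoidalCategory C]
  [SymmetricCategory C] [TensorTriangulated C] [MonoidalPreadditive C] [Linear ℚ C]
  [IsIdempotentComplete C] {E : Type w} [Field E] [CharZero E]
  {B : Realisation C E} {t : TStructure C}

lemma act_res_zero (hc : Conservative B) {Y Q : C} {f : 𝟙_ C ⟶ Y} {u : Y ⟶ Q}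
    {w : Q ⟶ (𝟙_ C)⟦(1 : ℤ)⟧} (hT : Triangle.mk f u w ∈ distTriang C) (hf : B.H.map f ≠ 0)
    {n : ℕ} {x : SA (n + 1)} (hx : act Y (n + 1) x = 0) : act Q n (res x) = 0 := by
  have h1 := act_res f u (comp12 hT) n x
  rw [show (act Y (n + 1) x : tpow Y (n + 1) ⟶ tpow Y (n + 1)) = 0 from hx, zero_comp,
    comp_zero] at h1
  exact act_zero hc (((HS_of_triangle hT hf).tpm n).cancel (BZ_of_tensor h1.symm hf))

lemma exists_coeff_one {n : ℕ} {X : C} {x : SA n} (hx : x ≠ 0) (h : act X n x = 0) :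
    ∃ y : SA n, y.coeff 1 ≠ 0 ∧ act X n y = 0 := by
  obtain ⟨σ, hσ⟩ : ∃ σ, x.coeff σ ≠ 0 := by
    by_contra hcon
    push Not at hcon
    exact hx (by ext σ; exact hcon σ)
  refine ⟨x * MonoidAlgebra.single σ⁻¹ 1, ?_, ?_⟩
  · simpa using hσ
  · rw [map_mul, h, zero_mul]

lemma faithful_aux (ht : TensorCompat t) (hu : Hrt t (𝟙_ C))
    (hle : ∀ X : C, (∀ n : ℤ, t.le n X) → IsZero X) (hc : Conservative B)
    {Y Q : C} {f : 𝟙_ C ⟶ Y} {u : Y ⟶ Q}
    {w : Q ⟶ (𝟙_ C)⟦(1 : ℤ)⟧} (hT : Triangle.mk f u w ∈ distTriang C) (hY : t.IsLE Y (-1))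
    (hf : B.H.map f ≠ 0) : ∀ (n : ℕ) (x : SA n), x ≠ 0 → act Q n x ≠ 0
  | 0, x, hx => by
    intro h
    obtain ⟨y, hy, hy0⟩ := exists_coeff_one hx h
    rw [sum_single y, Fintype.sum_unique, act_single] at hy0
    have h1 : (y.coeff default • 𝟙 (𝟙_ C) : 𝟙_ C ⟶ 𝟙_ C) = 0 := hy0
    apply not_isZero_unit B
    rw [IsZero.iff_id_eq_zero]
    exact (smul_eq_zero.1 h1).resolve_left hy
  | n + 1, x, hx => by
    intro h
    obtain ⟨y, hy, hy0⟩ := exists_coeff_one hx (act_zero_of_cone ht hu hle hT hY h)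
    refine faithful_aux ht hu hle hc hT hY hf n (res y) ?_ (act_res_zero hc hT hf hy0)
    intro h0
    apply hy
    rw [← res_coeff_one, h0]
    rfl

/-- A morphism from the unit to an object in negative degrees vanishes in cohomology. -/
theorem unit_zero (ht : TensorCompat t) (hu : Hrt t (𝟙_ C))
    (hle : ∀ X : C, (∀ n : ℤ, t.le n X) → IsZero X) (hc : Conservative B)
    {Y : C} (f : 𝟙_ C ⟶ Y) (hY : t.IsLE Y (-1)) : BZ B f := by
  have h0 : B.H.map f = 0 := by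
    by_contra hf
    obtain ⟨Q, u, w, hT⟩ := distinguished_cocone_triangle f
    obtain ⟨n, x, hx, h⟩ := exists_act_zero B hc Q
    exact faithful_aux ht hu hle hc hT hY hf n x hx h
  intro j
  by_cases hj : j = 0
  · subst hj
    rw [shift_zero_map, h0, zero_comp, comp_zero]
  · exact (deg_unit (R := B) j hj).eq_of_src _ _

variable [RightRigidCategory C]

/-- The dual of an object in degrees `≥ 0` is in degrees `≤ 0`. -/
lemma dual_isLE (ht : TensorCompat t) (hu : Hrt t (𝟙_ C)) {M : C} (hM : t.IsGE M 0) :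
    t.IsLE (Mᘁ : C) 0 := by
  rw [t.isLE_iff_orthogonal 0 1 (by omega)]
  intro Y f hY
  have h1 : t.IsGE (M ⊗ Y) 1 := by simpa using ht.isGE hM hY
  have h2 : (tensorLeftHomEquiv (𝟙_ C) M Mᘁ Y) ((ρ_ Mᘁ).hom ≫ f) = 0 :=
    t.zero_of_isLE_of_isGE _ 0 1 (by omega) hu.1 h1
  have h3 : (ρ_ Mᘁ).hom ≫ f = 0 := by
    rw [← (tensorLeftHomEquiv (𝟙_ C) M Mᘁ Y).symm_apply_apply ((ρ_ Mᘁ).hom ≫ f), h2]
    simp [tensorLeftHomEquiv]
  rw [← cancel_epi (ρ_ Mᘁ).hom, h3, comp_zero]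

/-- A morphism from degrees `≥ 0` to negative degrees vanishes in cohomology. -/
theorem neg_zero (ht : TensorCompat t) (hu : Hrt t (𝟙_ C))
    (hle : ∀ X : C, (∀ n : ℤ, t.le n X) → IsZero X) (hc : Conservative B)
    {Z X : C} (g : Z ⟶ X) (hZ : t.IsGE Z 0) (hX : t.IsLE X (-1)) : BZ B g := by
  have h1 : t.IsLE (X ⊗ Zᘁ) (-1) := by simpa using ht.isLE hX (dual_isLE ht hu hZ)
  have h2 := unit_zero ht hu hle hc (nm g) h1
  rw [nm_recover g]
  exact ((h2.wr Z).comp_right _).comp_left _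

/-- A morphism from degrees `≥ a` to degrees `< a` vanishes in cohomology. -/
theorem neg_zero' (ht : TensorCompat t) (hu : Hrt t (𝟙_ C))
    (hle : ∀ X : C, (∀ n : ℤ, t.le n X) → IsZero X) (hc : Conservative B)
    {Z X : C} (g : Z ⟶ X) {a b : ℤ} (hab : b < a) (hZ : t.IsGE Z a) (hX : t.IsLE X b) :
    BZ B g := by
  have h1 : t.IsGE (Z⟦a⟧) 0 := t.isGE_shift Z a a 0
  have h2 : t.IsLE (X⟦a⟧) (b - a) := t.isLE_shift X b a (b - a) (by omega)
  have h3 : t.IsLE (X⟦a⟧) (-1) := t.isLE_of_le _ (b - a) (-1) (by omega)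
  have h4 := (neg_zero ht hu hle hc (g⟦a⟧') h1 h3).shift (-a)
  rw [shift_shift_neg'] at h4
  exact (h4.cancel_epi _).cancel_mono _

end

end Pool.Agent.T6.H71.AE
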