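import Pool.Agent.Z125.UN.Schur

/-!
# The action of the symmetric group on tensor powers is multiplicative
-/

set_option autoImplicit false

open CategoryTheory MonoidalCategory Pool.Agent.TH137.DG Pool.Agent.Z125.UN

namespace Pool.Agent.T6.H71.AE

universe v u

variable {C : Type u} [Category.{v} C] [MonoidalCategory C] [SymmetricCategory C]

/-- the exchange of the first two factors -/
def fl (a W : C) : a ⊗ (a ⊗ W) ⟶ a ⊗ (a ⊗ W) :=
  (α_ a a W).inv ≫ (β_ a a).hom ▷ W ≫ (α_ a a W).hom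

lemma fl_fl (a W : C) : fl a W ≫ fl a W = 𝟙 _ := by
  simp [fl, ← comp_whiskerRight_assoc]

lemma fl_nat (a : C) {W W' : C} (g : W ⟶ W') : fl a W ≫ a ◁ (a ◁ g) = a ◁ (a ◁ g) ≫ fl a W' := by
  simp only [fl, Category.assoc]
  rw [← associator_naturality_right, ← whisker_exchange_assoc, associator_inv_naturality_right_assoc]

lemma fl_braid (a W : C) : fl a (a ⊗ W) ≫ a ◁ fl a W ≫ fl a (a ⊗ W) =
    a ◁ fl a W ≫ fl a (a ⊗ W) ≫ a ◁ fl a W := by
  have h1 := BraidedCategory.yang_baxter' a a a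
  have e1 : fl a (a ⊗ W) = 𝟙 (a ⊗ (a ⊗ (a ⊗ W))) ⊗≫ ((β_ a a).hom ▷ a) ▷ W ⊗≫
      𝟙 (a ⊗ (a ⊗ (a ⊗ W))) := by
    rw [fl]
    monoidal
  have e2 : a ◁ fl a W = 𝟙 (a ⊗ (a ⊗ (a ⊗ W))) ⊗≫ (a ◁ (β_ a a).hom) ▷ W ⊗≫
      𝟙 (a ⊗ (a ⊗ (a ⊗ W))) := by
    rw [fl]
    monoidal
  rw [e1, e2]
  calc _ = 𝟙 (a ⊗ (a ⊗ (a ⊗ W))) ⊗≫ ((β_ a a).hom ▷ a ⊗≫ a ◁ (β_ a a).hom ⊗≫
      (β_ a a).hom ▷ a) ▷ W ⊗≫ 𝟙 (a ⊗ (a ⊗ (a ⊗ W))) := by monoidal
    _ = 𝟙 (a ⊗ (a ⊗ (a ⊗ W))) ⊗≫ (𝟙 ((a ⊗ a) ⊗ a) ⊗≫ (a ◁ (β_ a a).hom ⊗≫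
      (β_ a a).hom ▷ a ⊗≫ a ◁ (β_ a a).hom) ⊗≫ 𝟙 ((a ⊗ a) ⊗ a)) ▷ W ⊗≫
      𝟙 (a ⊗ (a ⊗ (a ⊗ W))) := by
      rw [h1]
    _ = _ := by monoidal

lemma insAct_zero (a : C) (n : ℕ) : insAct a n 0 = 𝟙 _ := by
  cases n with
  | zero => rfl
  | succ n => rfl

lemma insAct_succ (a : C) (n : ℕ) (j : Fin (n + 1)) :
    insAct a (n + 1) j.succ = fl a (tpow a n) ≫ a ◁ insAct a n j := by
  simp only [fl, Category.assoc]
  rfl

lemma fl_ins (a : C) : ∀ (n : ℕ) (i i' : Fin (n + 2)) (j j' : Fin (n + 1)),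
    i.succAbove j = i' → i'.succAbove j' = i →
    fl a (tpow a n) ≫ a ◁ insAct a n j ≫ insAct a (n + 1) i =
      a ◁ insAct a n j' ≫ insAct a (n + 1) i'
  | n, i, i', j, j', h1, h2 => by
    induction i using Fin.cases with
    | zero =>
      rw [Fin.zero_succAbove] at h1
      subst h1
      have hj' : j' = 0 := by
        by_contra hne
        obtain ⟨k, rfl⟩ := Fin.exists_succ_eq.2 hne
        cases n with
        | zero => exact k.elim0
        | succ n =>
          rw [Fin.succ_succAbove_succ] at h2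
          exact (Fin.succ_ne_zero _) h2
      subst hj'
      rw [insAct_zero, insAct_zero, insAct_succ]
      simp
    | succ i₁ =>
      induction j using Fin.cases with
      | zero =>
        have h3 : i' = 0 := by rw [← h1, Fin.succ_succAbove_zero]
        subst h3
        have h4 : j' = i₁ := by
          rw [Fin.zero_succAbove] at h2
          exact Fin.succ_injective _ h2
        subst h4
        rw [insAct_zero, insAct_succ, insAct_zero]
        rw [MonoidalCategory.whiskerLeft_id, Category.id_comp, ← Category.assoc, fl_fl,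
          Category.id_comp, Category.comp_id]
      | succ j₁ =>
        cases n with
        | zero => exact j₁.elim0
        | succ m =>
          rw [Fin.succ_succAbove_succ] at h1
          subst h1
          have hj' : j' ≠ 0 := by
            rintro rfl
            rw [Fin.succ_succAbove_zero] at h2
            exact (Fin.succ_ne_zero _) h2.symm
          obtain ⟨k, rfl⟩ := Fin.exists_succ_eq.2 hj'
          rw [Fin.succ_succAbove_succ] at h2
          have h3 := Fin.succ_injective _ h2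
          have ih := fl_ins a m i₁ _ j₁ k rfl h3
          simp only [insAct_succ a (m + 1), insAct_succ a m, MonoidalCategory.whiskerLeft_comp,
            Category.assoc]
          have e1 : fl a (tpow a (m + 1)) ≫ a ◁ a ◁ insAct a m j₁ =
            a ◁ a ◁ insAct a m j₁ ≫ fl a (tpow a (m + 1)) := fl_nat a (insAct a m j₁)
          have e2 : fl a (tpow a (m + 1)) ≫ a ◁ a ◁ insAct a m k =
            a ◁ a ◁ insAct a m k ≫ fl a (tpow a (m + 1)) := fl_nat a (insAct a m k)
          have e3 : fl a (tpow a (m + 1)) ≫ a ◁ fl a (tpow a m) ≫ fl a (tpow a (m + 1)) =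
            a ◁ fl a (tpow a m) ≫ fl a (tpow a (m + 1)) ≫ a ◁ fl a (tpow a m) :=
            fl_braid a (tpow a m)
          have e4 := congrArg (fun z => a ◁ z) ih
          simp only [MonoidalCategory.whiskerLeft_comp] at e4
          rw [← reassoc_of% e1, reassoc_of% e3, e4, reassoc_of% e2]

lemma permTail_eq {n : ℕ} {σ : Equiv.Perm (Fin (n + 1))} {τ : Equiv.Perm (Fin n)}
    (h : ∀ i, (σ 0).succAbove (τ i) = σ i.succ) : permTail σ = τ := by
  ext i
  have h1 := (permTail_apply σ i).trans (h i).symm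
  rw [Fin.succAbove_right_injective h1]

lemma permTail_one {n : ℕ} : permTail (1 : Equiv.Perm (Fin (n + 1))) = 1 :=
  permTail_eq fun i => by simp

lemma permTail_mul {n : ℕ} (τ ρ : Equiv.Perm (Fin (n + 1))) (h : ρ 0 = 0) :
    permTail (τ * ρ) = permTail τ * permTail ρ := by
  apply permTail_eq
  intro i
  have h1 := permTail_apply ρ i
  rw [h, Fin.zero_succAbove] at h1
  have h2 := permTail_apply τ (permTail ρ i)
  rw [Equiv.Perm.mul_apply, h, Equiv.Perm.mul_apply, h2, h1, Equiv.Perm.mul_apply]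

lemma permAct_succ (a : C) (n : ℕ) (σ : Equiv.Perm (Fin (n + 1))) :
    permAct a (n + 1) σ = a ◁ permAct a n (permTail σ) ≫ insAct a n (σ 0) := rfl

lemma permAct_one (a : C) : ∀ n : ℕ, permAct a n 1 = 𝟙 _
  | 0 => rfl
  | n + 1 => by
    rw [permAct_succ, permTail_one, permAct_one a n, Equiv.Perm.one_apply, insAct_zero]
    simp

lemma permAct_fix (a : C) (n : ℕ) (ρ τ : Equiv.Perm (Fin (n + 1))) (h : ρ 0 = 0)
    (hn : permAct a n (permTail ρ) ≫ permAct a n (permTail τ) =
      permAct a n (permTail τ * permTail ρ)) :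
    permAct a (n + 1) ρ ≫ permAct a (n + 1) τ = permAct a (n + 1) (τ * ρ) := by
  rw [permAct_succ, permAct_succ, permAct_succ, permTail_mul τ ρ h, h, insAct_zero,
    Equiv.Perm.mul_apply, h, ← hn]
  simp

lemma val_succAbove {m : ℕ} (p : Fin (m + 1)) (q : Fin m) :
    (p.succAbove q).val = if q.val < p.val then q.val else q.val + 1 := by
  simp only [Fin.succAbove, Fin.lt_def, Fin.val_castSucc]
  split_ifs <;> simp

lemma succAbove_key (m : ℕ) (p p' : Fin (m + 2)) (q q' : Fin (m + 1)) (x : Fin m)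
    (hp : p.succAbove q = p') (hp' : p'.succAbove q' = p) :
    p'.succAbove (q'.succAbove x) = p.succAbove (q.succAbove x) := by
  have a1 := congrArg Fin.val hp
  have a2 := congrArg Fin.val hp'
  apply Fin.ext
  rw [val_succAbove] at a1 a2
  rw [val_succAbove, val_succAbove, val_succAbove, val_succAbove]
  split_ifs at a1 a2 ⊢ <;> omega

lemma permAct_swap (a : C) (n : ℕ) (τ : Equiv.Perm (Fin (n + 2))) :
    permAct a (n + 2) (Equiv.swap 0 1) ≫ permAct a (n + 2) τ =
      permAct a (n + 2) (τ * Equiv.swap 0 1) := by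
  have h0 : permTail (Equiv.swap (0 : Fin (n + 2)) 1) = 1 := by
    apply permTail_eq
    intro i
    rw [Equiv.swap_apply_left, Equiv.Perm.one_apply]
    induction i using Fin.cases with
    | zero => simp
    | succ k =>
      rw [show (1 : Fin (n + 2)) = Fin.succ 0 from rfl, Fin.succ_succAbove_succ,
        Equiv.swap_apply_of_ne_of_ne (Fin.succ_ne_zero _)
        (fun h => Fin.succ_ne_zero k (Fin.succ_injective _ h))]
      simp
  have h1 : permAct a (n + 2) (Equiv.swap 0 1) = fl a (tpow a n) := by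
    rw [permAct_succ, h0, permAct_one, Equiv.swap_apply_left,
      show (1 : Fin (n + 2)) = Fin.succ 0 from rfl, insAct_succ, insAct_zero]
    simp
  set ρ := τ * Equiv.swap (0 : Fin (n + 2)) 1 with hρ
  have e0 : ρ 0 = τ 1 := by simp [hρ]
  have e1 : ρ 1 = τ 0 := by simp [hρ]
  have e2 : ∀ k : Fin n, ρ k.succ.succ = τ k.succ.succ := by
    intro k
    have h3 : (Equiv.swap (0 : Fin (n + 2)) 1) k.succ.succ = k.succ.succ :=
      Equiv.swap_apply_of_ne_of_ne (Fin.succ_ne_zero _)
        (fun h => Fin.succ_ne_zero k (Fin.succ_injective _ h))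
    rw [hρ, Equiv.Perm.mul_apply, h3]
  have f1 : (τ 0).succAbove (permTail τ 0) = ρ 0 := by rw [permTail_apply, e0]; rfl
  have f2 : (ρ 0).succAbove (permTail ρ 0) = τ 0 := by rw [permTail_apply, ← e1]; rfl
  have h2 : permTail (permTail ρ) = permTail (permTail τ) := by
    apply permTail_eq
    intro i
    have g1 := permTail_apply ρ i.succ
    have g2 := permTail_apply τ i.succ
    rw [e2, ← g2, ← permTail_apply (permTail τ)] at g1
    apply Fin.succAbove_right_injective (p := ρ 0)
    rw [g1]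
    exact succAbove_key n (τ 0) (ρ 0) (permTail τ 0) (permTail ρ 0) _ f1 f2
  rw [h1, permAct_succ, permAct_succ a n (permTail τ), permAct_succ, permAct_succ a n (permTail ρ),
    h2]
  simp only [MonoidalCategory.whiskerLeft_comp, Category.assoc]
  rw [reassoc_of% (fl_nat a (permAct a n (permTail (permTail τ)))),
    fl_ins a n (τ 0) (ρ 0) (permTail τ 0) (permTail ρ 0) f1 f2]

/-- The action is multiplicative. -/
theorem permAct_mul (a : C) : ∀ (n : ℕ) (ρ τ : Equiv.Perm (Fin n)),
    permAct a n ρ ≫ permAct a n τ = permAct a n (τ * ρ)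
  | 0, ρ, τ => by
    change 𝟙 _ ≫ 𝟙 _ = 𝟙 _
    rw [Category.comp_id]
  | 1, ρ, τ => permAct_fix a 0 ρ τ (Fin.ext (by omega)) (permAct_mul a 0 _ _)
  | n + 2, ρ, τ => by
    let S : Submonoid (Equiv.Perm (Fin (n + 2))) :=
      { carrier := {ρ | ∀ τ, permAct a (n + 2) ρ ≫ permAct a (n + 2) τ = permAct a (n + 2) (τ * ρ)}
        one_mem' := fun τ => by rw [permAct_one, Category.id_comp, mul_one]
        mul_mem' := by
          intro ρ ρ' h h' τ
          rw [← h' ρ, Category.assoc, h τ, h' (τ * ρ), mul_assoc] }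
    have hS : S = ⊤ := by
      rw [eq_top_iff, ← Equiv.Perm.mclosure_swap_castSucc_succ, Submonoid.closure_le]
      rintro _ ⟨k, rfl⟩ τ
      induction k using Fin.cases with
      | zero => exact permAct_swap a n τ
      | succ k =>
        refine permAct_fix a (n + 1) _ τ ?_ (permAct_mul a (n + 1) _ _)
        apply Equiv.swap_apply_of_ne_of_ne
        · intro h
          have := congrArg Fin.val h
          simp at this
        · intro h
          have := congrArg Fin.val h
          simp at this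
    have h1 : ρ ∈ S := by rw [hS]; trivial
    exact h1 τ

end Pool.Agent.T6.H71.AE
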