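import Pool.Agent.T6.H71.AE.Neg

/-!
# Strictness of the filtration defined by the truncations
-/

set_option autoImplicit false
set_option linter.unusedSectionVars false
set_option linter.unusedSimpArgs false
set_option backward.isDefEq.respectTransparency false
set_option backward.defeqAttrib.useBackward true

open CategoryTheory Limits MonoidalCategory Pretriangulated Triangulated

namespace Pool.Agent.T6.H71.AE

open Pool.Agent.Y116.MT Pool.Agent.V1178.MT Pool.Agent.T6.H13.MT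

universe v u w

section

variable {C : Type u} [Category.{v} C] [Preadditive C] [HasZeroObject C] [HasShift C ℤ]
  [∀ n : ℤ, (shiftFunctor C n).Additive] [Pretriangulated C]

lemma hex0 {E : Type w} [Field E] (H : C ⥤ ModuleCat.{w} E) [H.IsHomological]
    {X Y Z : C} {f : X ⟶ Y} {g : Y ⟶ Z} {h : Z ⟶ X⟦(1 : ℤ)⟧}
    (hT : Triangle.mk f g h ∈ distTriang C) (x : H.obj Y) (hx : H.map g x = 0) :
    ∃ y, H.map f y = x :=
  (ShortComplex.moduleCat_exact_iff _).1 (H.map_distinguished_exact _ hT) x hx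

lemma map_comp_apply {E : Type w} [Field E] (H : C ⥤ ModuleCat.{w} E) {X Y Z : C} (f : X ⟶ Y)
    (g : Y ⟶ Z) (x : H.obj X) : H.map (f ≫ g) x = H.map g (H.map f x) := by
  rw [Functor.map_comp]
  rfl

lemma map_zero_apply {E : Type w} [Field E] (H : C ⥤ ModuleCat.{w} E) [H.PreservesZeroMorphisms]
    {X Y : C} {f : X ⟶ Y} (h : f = 0) (x : H.obj X) : H.map f x = 0 := by
  rw [h, Functor.map_zero]
  rfl

end

section

variable {C : Type u} [Category.{v} C] [Preadditive C] [HasZeroObject C] [HasShift C ℤ]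
  [∀ n : ℤ, (shiftFunctor C n).Additive] [Pretriangulated C] [MonoidalCategory C]
  [SymmetricCategory C] [TensorTriangulated C] {E : Type w} [Field E] (R : Realisation C E)
  (t : TStructure C)

/-- All morphisms from degrees `≥ a` to degrees `< a` vanish in cohomology. -/
def Neg : Prop := ∀ (Z X : C) (g : Z ⟶ X) (a b : ℤ), b < a → t.IsGE Z a → t.IsLE X b → BZ R g

variable {R t}

/-- Strictness. -/
theorem strict [IsTriangulated C] (hS : Neg R t) {M M' : C} (f : M ⟶ M') (i : ℤ)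
    {M₁ M₂ M₁' M₂' : C} {ι : M₁ ⟶ M} {q : M ⟶ M₂} {δ : M₂ ⟶ M₁⟦(1 : ℤ)⟧}
    (hM : Triangle.mk ι q δ ∈ distTriang C) (h₁ : t.IsLE M₁ i) (h₂ : t.IsGE M₂ (i + 1))
    {ι' : M₁' ⟶ M'} {q' : M' ⟶ M₂'} {δ' : M₂' ⟶ M₁'⟦(1 : ℤ)⟧}
    (hM' : Triangle.mk ι' q' δ' ∈ distTriang C) (h₁' : t.IsLE M₁' i) (h₂' : t.IsGE M₂' (i + 1))
    (y : R.H.obj M) (hy : R.H.map q' (R.H.map f y) = 0) :
    ∃ y₁ : R.H.obj M₁, R.H.map f (R.H.map ι y₁) = R.H.map f y := by
  have h0 : ι ≫ f ≫ q' = 0 := t.zero_of_isLE_of_isGE _ i (i + 1) (by omega) h₁ h₂'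
  obtain ⟨f₂, hf₂⟩ := ye2 hM (f ≫ q') h0
  obtain ⟨F, vF, wF, hF⟩ := distinguished_cocone_triangle₁ f
  obtain ⟨K, vK, wK, hK⟩ := distinguished_cocone_triangle₁ f₂
  obtain ⟨P, vP, wP, hP⟩ := distinguished_cocone_triangle₁ (f ≫ q')
  have O1 := someOctahedron' (rfl : f ≫ q' = f ≫ q') hF hM' hP
  have O2 := someOctahedron' hf₂.symm hM hK hP
  obtain ⟨G, g, w, hG⟩ := distinguished_cocone_triangle (O1.m₁ ≫ O2.m₃)
  have O3 := someOctahedron (rfl : O1.m₁ ≫ O2.m₃ = O1.m₁ ≫ O2.m₃) O1.mem (rotD O2.mem) hG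
  have hK1 : t.IsGE K (i + 1) := isGE1 hK h₂ (t.isGE_of_ge M₂' (i + 1 - 1) (i + 1))
  have h6 : t.IsLE (M₁⟦(1 : ℤ)⟧) (i - 1) := t.isLE_shift M₁ i 1 (i - 1)
  have hG1 : t.IsLE G i := isLE2 O3.mem h₁' (t.isLE_of_le (M₁⟦(1 : ℤ)⟧) (i - 1) i (by omega))
  have hφ : HS R (O1.m₁ ≫ O2.m₃) := (HS_iff hG).2 (hS _ _ g (i + 1) i (by omega) hK1 hG1)
  have e1 : (O1.m₁ ≫ O2.m₃) ≫ vK = vF ≫ q := by
    rw [Category.assoc, O2.comm₄, ← Category.assoc, O1.comm₁]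
  -- elements
  have h3 : R.H.map f₂ (R.H.map q y) = 0 := by
    rw [← map_comp_apply, ← hf₂, map_comp_apply, hy]
  obtain ⟨z, hz⟩ := hex0 R.H hK _ h3
  have h4 : Epi (R.H.map (O1.m₁ ≫ O2.m₃)) := epi_of_shift_zero R.H _ (hφ 0)
  obtain ⟨z', rfl⟩ := (ModuleCat.epi_iff_surjective _).1 h4 z
  have h5 : R.H.map q (y - R.H.map vF z') = 0 := by
    rw [map_sub, ← hz, ← map_comp_apply, ← map_comp_apply, e1, sub_self]
  obtain ⟨y₁, hy₁⟩ := hex0 R.H hM _ h5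
  refine ⟨y₁, ?_⟩
  rw [hy₁, map_sub, ← map_comp_apply R.H vF f, map_zero_apply R.H (comp12 hF), sub_zero]

end

end Pool.Agent.T6.H71.AE
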