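import Pool.Agent.T6.H71.AE.Count

/-!
# Morphisms which are universally monomorphisms for a t-structure
-/

set_option autoImplicit false
set_option linter.unusedSectionVars false
set_option linter.unusedSimpArgs false
set_option backward.isDefEq.respectTransparency false
set_option backward.defeqAttrib.useBackward true

open CategoryTheory Limits MonoidalCategory Pretriangulated Triangulated

namespace Pool.Agent.T6.H71.AE

open Pool.Agent.Y116.MT Pool.Agent.V1178.MT Pool.Agent.T6.H13.MT Pool.Agent.TH137.DG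
  Pool.Agent.Z125.UN

universe v u w

section

variable {C : Type u} [Category.{v} C] [Preadditive C] [HasZeroObject C] [HasShift C ℤ]
  [∀ n : ℤ, (shiftFunctor C n).Additive] [Pretriangulated C] (t : TStructure C)

/-- `g` is injective in the sense of the truncations of the t-structure. -/
def TM {X X' : C} (g : X ⟶ X') : Prop := ∀ (m : ℤ) (A : C), t.IsLE A m → ∀ a : A ⟶ X,
  (∀ (B : C), t.IsGE B m → ∀ b : X' ⟶ B, a ≫ g ≫ b = 0) →
    ∀ (B : C), t.IsGE B m → ∀ b : X ⟶ B, a ≫ b = 0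

variable {t}

lemma TM.comp {X Y Z : C} {f : X ⟶ Y} {g : Y ⟶ Z} (hf : TM t f) (hg : TM t g) :
    TM t (f ≫ g) := by
  intro m A hA a h B hB b
  apply hf m A hA a _ B hB b
  intro B' hB' b'
  have := hg m A hA (a ≫ f) (fun B hB b => by simpa using h B hB b) B' hB' b'
  simpa using this

lemma TM_iso {X Y : C} (f : X ⟶ Y) [IsIso f] : TM t f := by
  intro m A hA a h B hB b
  have := h B hB (inv f ≫ b)
  simpa using this

/-- An idempotent which is killed by a t-monomorphism vanishes. -/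
lemma idem_zero_of_TM [MonoidalCategory C] [SymmetricCategory C] [TensorTriangulated C]
    [IsIdempotentComplete C] (hle : ∀ X : C, (∀ n : ℤ, t.le n X) → IsZero X)
    {X X' : C} {m₀ : ℤ} (hX : t.IsLE X m₀) {e : X ⟶ X} (he : e ≫ e = e) {g : X ⟶ X'}
    (hg : TM t g) (h : e ≫ g = 0) : e = 0 := by
  obtain ⟨Z, i, r, hir, hri⟩ := IsIdempotentComplete.idempotents_split X e he
  have hig : i ≫ g = 0 := by
    rw [← Category.id_comp (i ≫ g), ← hir, Category.assoc, ← Category.assoc r i g, hri, h,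
      comp_zero]
  have key : ∀ m : ℤ, t.IsLE Z m → t.IsLE Z (m - 1) := by
    intro m hm
    rw [t.isLE_iff_orthogonal (m - 1) m (by omega)]
    intro B f hB
    have h1 := hg m Z hm i (fun B' _ b' => by rw [← Category.assoc, hig, zero_comp]) B hB (r ≫ f)
    rwa [← Category.assoc, hir, Category.id_comp] at h1
  have h1 : ∀ n : ℕ, t.IsLE Z (m₀ - n) := by
    intro n
    induction n with
    | zero => simpa using isLE_retract hX i r hir
    | succ n ih =>
      have := key _ ih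
      rwa [show m₀ - (n : ℤ) - 1 = m₀ - ((n + 1 : ℕ) : ℤ) by push_cast; ring] at this
  have h2 : IsZero Z := by
    apply hle
    intro n
    have h3 := h1 (m₀ - n).toNat
    exact (t.isLE_of_le Z (m₀ - ((m₀ - n).toNat : ℤ)) n (by omega)).le
  rw [← hri, h2.eq_of_src i 0, comp_zero]

end

section

variable {C : Type u} [Category.{v} C] [Preadditive C] [HasZeroObject C] [HasShift C ℤ]
  [∀ n : ℤ, (shiftFunctor C n).Additive] [Pretriangulated C] [MonoidalCategory C]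
  [SymmetricCategory C] (t : TStructure C)

/-- `g` and all its tensor products with objects are t-monomorphisms. -/
def UM {X X' : C} (g : X ⟶ X') : Prop := ∀ Z : C, TM t (g ▷ Z)

variable {t}

lemma UM.comp {X Y Z : C} {f : X ⟶ Y} {g : Y ⟶ Z} (hf : UM t f) (hg : UM t g) :
    UM t (f ≫ g) := fun W => by
  rw [comp_whiskerRight]
  exact (hf W).comp (hg W)

lemma UM_iso {X Y : C} (f : X ⟶ Y) [IsIso f] : UM t f := fun _ => TM_iso _

lemma UM.wr {X Y : C} {f : X ⟶ Y} (h : UM t f) (W : C) : UM t (f ▷ W) := fun Z => by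
  have h1 : (f ▷ W) ▷ Z = (α_ X W Z).hom ≫ f ▷ (W ⊗ Z) ≫ (α_ Y W Z).inv := by simp
  rw [h1]
  exact (TM_iso _).comp ((h _).comp (TM_iso _))

lemma UM.wl {X Y : C} {f : X ⟶ Y} (h : UM t f) (W : C) : UM t (W ◁ f) := by
  have h1 : W ◁ f = (β_ W X).hom ≫ f ▷ W ≫ (β_ W Y).inv := by
    rw [← BraidedCategory.braiding_naturality_right_assoc, Iso.hom_inv_id, Category.comp_id]
  rw [h1]
  exact (UM_iso _).comp ((h.wr W).comp (UM_iso _))

lemma UM.tpm {X Y : C} {f : X ⟶ Y} (h : UM t f) : ∀ n : ℕ, UM t (tpm f n)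
  | 0 => UM_iso (𝟙 _)
  | n + 1 => by
    change UM t (f ⊗ₘ Pool.Agent.Z125.UN.tpm f n)
    rw [MonoidalCategory.tensorHom_def]
    exact (h.wr _).comp ((UM.tpm h n).wl _)

lemma UM.tm {X Y : C} {f : X ⟶ Y} (h : UM t f) : TM t f := by
  have h1 : f = (ρ_ X).inv ≫ f ▷ 𝟙_ C ≫ (ρ_ Y).hom := by simp
  rw [h1]
  exact (TM_iso _).comp ((h _).comp (TM_iso _))

variable [TensorTriangulated C]

/-- The cone of a morphism from the unit to an object in negative degrees. -/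
lemma UM_of_triangle (ht : TensorCompat t) {Y Q : C} {f : 𝟙_ C ⟶ Y} {u : Y ⟶ Q}
    {w : Q ⟶ (𝟙_ C)⟦(1 : ℤ)⟧} (hT : Triangle.mk f u w ∈ distTriang C) (hY : t.IsLE Y (-1)) :
    UM t u := by
  intro Z m A hA a h B hB b
  obtain ⟨Z₁, Z₂, hZ₁, hZ₂, i, p, d, hZ⟩ := t.exists_triangle Z m (m + 1) rfl
  have hZ1 : t.IsLE Z₁ m := ⟨hZ₁⟩
  have hZ2 : t.IsGE Z₂ (m + 1) := ⟨hZ₂⟩
  have h1 : (Y ◁ i) ≫ b = 0 :=
    t.zero_of_isLE_of_isGE _ (-1 + m) m (by omega) (ht.isLE hY hZ1) hB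
  obtain ⟨b', hb'⟩ := ye2 (tensor_dist Y hZ) b h1
  obtain ⟨G, κ, δ, hG⟩ := distinguished_cocone_triangle (f ▷ Z₂ ≫ b')
  have hU : t.IsGE (𝟙_ C ⊗ Z₂) (m + 1) :=
    @TStructure.isGE_of_iso _ _ _ _ _ _ _ t _ _ (λ_ Z₂).symm _ hZ2
  have hG1 : t.IsGE G m := isGE3 hG hU hB
  have h2 : (Z₂ ◁ f) ≫ ((β_ Z₂ Y).hom ≫ b' ≫ κ) = 0 := by
    rw [← Category.assoc, BraidedCategory.braiding_naturality_right, Category.assoc,
      ← Category.assoc (f ▷ Z₂), comp12 hG, comp_zero]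
  obtain ⟨c', hc'⟩ := ye2 (tensor_dist Z₂ hT) _ h2
  have h3 : b' ≫ κ = (u ▷ Z₂) ≫ (β_ Z₂ Q).inv ≫ c' := by
    rw [← cancel_epi (β_ Z₂ Y).hom, hc', ← BraidedCategory.braiding_naturality_right_assoc,
      Iso.hom_inv_id_assoc]
  have h4 : (a ≫ b) ≫ κ = 0 := by
    have h5 := h G hG1 ((Q ◁ p) ≫ (β_ Z₂ Q).inv ≫ c')
    rw [hb', Category.assoc, Category.assoc, h3, whisker_exchange_assoc]
    exact h5
  obtain ⟨l, hl⟩ := ce2 hG _ h4
  have h5 : l = 0 := t.zero_of_isLE_of_isGE _ m (m + 1) (by omega) hA hU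
  rw [hl, h5, zero_comp]

lemma tpow_isLE (ht : TensorCompat t) (hu : Hrt t (𝟙_ C)) {Y : C} (hY : t.IsLE Y 0) :
    ∀ n : ℕ, t.IsLE (tpow Y n) 0
  | 0 => hu.1
  | n + 1 => by simpa using ht.isLE hY (tpow_isLE ht hu hY n)

variable [Linear ℚ C] [IsIdempotentComplete C]

/-- The kernels of the actions on `Q` and on `Y`. -/
lemma act_zero_of_cone (ht : TensorCompat t) (hu : Hrt t (𝟙_ C))
    (hle : ∀ X : C, (∀ n : ℤ, t.le n X) → IsZero X) {Y Q : C} {f : 𝟙_ C ⟶ Y} {u : Y ⟶ Q}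
    {w : Q ⟶ (𝟙_ C)⟦(1 : ℤ)⟧} (hT : Triangle.mk f u w ∈ distTriang C) (hY : t.IsLE Y (-1))
    {n : ℕ} {x : SA n} (hx : act Q n x = 0) : act Y n x = 0 := by
  obtain ⟨r, h1, h2⟩ := exists_idem x
  have h3 : (act Y n (r * x) : tpow Y n ⟶ tpow Y n) = 0 := by
    refine idem_zero_of_TM hle (tpow_isLE ht hu (t.isLE_of_le Y (-1) 0) n) ?_
      ((UM_of_triangle ht hT hY).tpm n).tm ?_
    · rw [← act_mul, h1]
    · rw [act_nat, act_mul]
      rw [show (act Q n x : tpow Q n ⟶ tpow Q n) = 0 from hx, zero_comp, comp_zero]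
  have h4 : (act Y n x : tpow Y n ⟶ tpow Y n) = act Y n (r * x) ≫ act Y n x := by
    rw [← act_mul, h2]
  rw [h4, h3]
  exact zero_comp

end

end Pool.Agent.T6.H71.AE
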