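import Pool.Agent.T6.H71.AE.Strict

/-!
# Objects which receive no cohomology from negative degrees
-/

set_option autoImplicit false
set_option linter.unusedSectionVars false
set_option linter.unusedSimpArgs false
set_option backward.isDefEq.respectTransparency false
set_option backward.defeqAttrib.useBackward true

open CategoryTheory Limits MonoidalCategory Pretriangulated Triangulated

namespace Pool.Agent.T6.H71.AE

open Pool.Agent.Y116.MT Pool.Agent.V1178.MT Pool.Agent.T6.H13.MT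

universe v u w

open Functor.LaxMonoidal

section

variable {C : Type u} [Category.{v} C] [Preadditive C] [HasZeroObject C] [HasShift C ℤ]
  [∀ n : ℤ, (shiftFunctor C n).Additive] [Pretriangulated C] [MonoidalCategory C]
  [SymmetricCategory C] [TensorTriangulated C] {E : Type w} [Field E] (R : Realisation C E)
  (t : TStructure C)

/-- The morphisms to `M` from objects in negative degrees vanish in cohomology. -/
def W0 (M : C) : Prop := ∀ (A : C), t.IsLE A (-1) → ∀ g : A ⟶ M, R.H.map g = 0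

variable {R t}

lemma W0.iso {M M' : C} (h : W0 R t M) (e : M ≅ M') : W0 R t M' := fun A hA g => by
  have h1 := h A hA (g ≫ e.inv)
  have h2 : g = (g ≫ e.inv) ≫ e.hom := by simp
  rw [h2, Functor.map_comp, h1, zero_comp]

lemma W0.retract {M M' : C} (h : W0 R t M) (i : M' ⟶ M) (r : M ⟶ M') (hir : i ≫ r = 𝟙 _) :
    W0 R t M' := fun A hA g => by
  have h1 := h A hA (g ≫ i)
  have h2 : g = (g ≫ i) ≫ r := by rw [Category.assoc, hir, Category.comp_id]
  rw [h2, Functor.map_comp, h1, zero_comp]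

lemma W0_of_isZero {M : C} (h : IsZero (R.H.obj M)) : W0 R t M := fun _ _ _ => h.eq_of_tgt _ _

lemma W0.aux [IsTriangulated C] (hS : Neg R t) {M M' : C} (h : W0 R t M) (f : M ⟶ M') {A : C}
    (hA : t.IsLE A (-1)) (a : A ⟶ M') (x : R.H.obj A) (z : R.H.obj M)
    (hz : R.H.map f z = R.H.map a x) : R.H.map a x = 0 := by
  obtain ⟨M₁, M₂, h₁, h₂, ι, q, δ, hM⟩ := t.exists_triangle M (-1) 0 rfl
  obtain ⟨M₁', M₂', h₁', h₂', ι', q', δ', hM'⟩ := t.exists_triangle M' (-1) 0 rfl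
  have ha : a ≫ q' = 0 := t.zero_of_isLE_of_isGE _ (-1) 0 (by omega) hA ⟨h₂'⟩
  obtain ⟨y₁, hy₁⟩ := strict hS f (-1) hM ⟨h₁⟩ ⟨h₂⟩ hM' ⟨h₁'⟩ ⟨h₂'⟩ z (by
    rw [hz, ← map_comp_apply, map_zero_apply R.H ha])
  have h3 := h M₁ ⟨h₁⟩ ι
  rw [h3] at hy₁
  rw [← hz, ← hy₁]
  exact map_zero _

lemma W0.ext [IsTriangulated C] (hS : Neg R t) {M₁ M₂ M₃ : C} {f : M₁ ⟶ M₂} {g : M₂ ⟶ M₃}
    {h : M₃ ⟶ M₁⟦(1 : ℤ)⟧} (hT : Triangle.mk f g h ∈ distTriang C) (h₁ : W0 R t M₁)
    (h₃ : W0 R t M₃) : W0 R t M₂ := fun A hA a => by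
  ext x
  have h5 : R.H.map g (R.H.map a x) = 0 := by
    rw [← map_comp_apply, h₃ A hA (a ≫ g)]
    rfl
  obtain ⟨z, hz⟩ := hex0 R.H hT _ h5
  exact h₁.aux hS f hA a x z hz

lemma W0.transfer [IsTriangulated C] (hS : Neg R t) {M M' : C} (h : W0 R t M) (f : M ⟶ M')
    (hf : IsIso (R.H.map f)) : W0 R t M' := fun A hA a => by
  ext x
  obtain ⟨z, hz⟩ := (ModuleCat.epi_iff_surjective (R.H.map f)).1 inferInstance (R.H.map a x)
  exact h.aux hS f hA a x z hz

lemma map_wl_zero' {P X Y : C} (hP : R.Deg P 0) (h : X ⟶ Y) (hz : R.H.map h = 0) :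
    R.H.map (P ◁ h) = 0 := by
  have h1 := hP.isIso_mu X
  have h2 : R.H.obj P ◁ (0 : R.H.obj X ⟶ R.H.obj Y) = 0 := (tensorLeft _).map_zero _ _
  rw [← cancel_epi (μ R.H P X), ← μ_natural_right, hz, h2, zero_comp, comp_zero]

/-- Twisting. -/
lemma W0.twist (ht : TensorCompat t) {P P' X : C} (hP : R.Deg P 0) (hP' : t.IsLE P' 0)
    (e : P ⊗ P' ≅ 𝟙_ C) (h : W0 R t (P' ⊗ X)) : W0 R t X := fun A hA g => by
  have h1 : t.IsLE (P' ⊗ A) (-1) := by simpa using ht.isLE hP' hA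
  have h2 := map_wl_zero' hP _ (h _ h1 (P' ◁ g))
  have h3 : g = (λ_ A).inv ≫ (e.inv ▷ A) ≫ (α_ P P' A).hom ≫ P ◁ (P' ◁ g) ≫ (α_ P P' X).inv ≫
      (e.hom ▷ X) ≫ (λ_ X).hom := by
    rw [← associator_naturality_right_assoc, Iso.hom_inv_id_assoc, whisker_exchange_assoc,
      ← comp_whiskerRight_assoc]
    simp
  rw [h3, Functor.map_comp, Functor.map_comp, Functor.map_comp, Functor.map_comp, h2, zero_comp,
    comp_zero, comp_zero, comp_zero]

variable (C) in
/-- Tate objects: the powers `T m = 𝟙(m)` of an invertible object `T 1 = 𝟙(1)`. -/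
structure IsTate (T : ℤ → C) : Prop where
  zero : Nonempty (T 0 ≅ 𝟙_ C)
  add (m n : ℤ) : Nonempty (T m ⊗ T n ≅ T (m + n))

end

end Pool.Agent.T6.H71.AE
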